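import Pool.Agent.H49.TT.Off

/-!
# The false case: walking along an unburned clause path
-/

namespace Pool.Agent.H49.TT

open Pool.Agent.H33.TT V Cor

variable {p : Par}

/-- The edge of a literal. -/
def litE (p : Par) (c r : ℕ) : Sym2 V :=
  s(ln (p.lane c r) (p.ai c r) (p.sd c r), ln (p.lane c r) (p.ai c r + 1) (p.sd c r))

lemma litE_ne (hT : p.Typed) {c r r' : ℕ} (hc : c < p.M) (hr : r < 3) (hr' : r' < 3)
    (hne : r ≠ r') : litE p c r ≠ litE p c r' := by
  intro h
  rcases Sym2.eq_iff.1 h with ⟨h1, h2⟩ | ⟨h1, h2⟩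
  · refine hT.ne c c r r' hc hc hr hr' hne ?_
    obtain ⟨e1, e2, e3⟩ := V.ln.inj h1
    unfold Par.lit
    have e4 : p.st c r = p.st c r' := by
      rw [← p.ai_div (r := r) hc, ← p.ai_div (r := r') hc, e2]
    rw [e1, e3, e4]
  · have := (V.ln.inj h1).2.1
    have := (V.ln.inj h2).2.1
    omega

/-- The rest of the path of clause `c` is free (corridors `≥ m`, literals `≥ m'`), the opponent is
in `G` at distance `k` from `n2`. -/
structure CPs (p : Par) (c m m' k : ℕ) (U : Set (Sym2 V)) : Prop where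
  kf : ∀ r, m ≤ r → r ≤ 3 → p.cfree (K c r) U
  lf : ∀ r, m' ≤ r → r < 3 → litE p c r ∉ U
  Rf : s(R, n1) ∉ U
  nf : s(n1, n2) ∉ U
  gf : ∀ j, j < k → p.ce G false j ∉ U
  gb : p.ce G false k ∈ U

lemma ce_old {c : Cor} {d : Bool} {j k : ℕ} {a a' : V} {U : Set (Sym2 V)} (hk : k < p.lG)
    (hj : j < p.len c) (h1 : c ≠ G) (ha : ¬ inC c a) (ha' : ¬ inC c a') (h : p.ce c d j ∉ U) :
    p.ce c d j ∉ insert (p.ce G false k) (insert s(a, a') U) := by
  rintro (h2 | h2 | h2)
  · exact p.ce_ne (c := c) (c' := G) hj hk h1 h2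
  · exact p.ne_ce hj ha ha' h2.symm
  · exact h h2

lemma cG_old {j k : ℕ} {a a' : V} {U : Set (Sym2 V)} (hk : k < p.lG) (hj : j < k)
    (ha : ¬ inC G a) (ha' : ¬ inC G a') (h : p.ce G false j ∉ U) :
    p.ce G false j ∉ insert (p.ce G false k) (insert s(a, a') U) := by
  have hl : p.len G = p.lG := rfl
  rintro (h2 | h2 | h2)
  · have := p.ce_inj (c := G) (by omega) (by omega) h2
    omega
  · exact p.ne_ce (c := G) (by omega) ha ha' h2.symm
  · exact h h2

lemma e_old {k : ℕ} {a a' v v' : V} {U : Set (Sym2 V)} (hk : k < p.lG)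
    (hv : ¬ inC G v) (hv' : ¬ inC G v') (hne : s(v, v') ≠ s(a, a')) (h : s(v, v') ∉ U) :
    s(v, v') ∉ insert (p.ce G false k) (insert s(a, a') U) := by
  rintro (h2 | h2 | h2)
  · exact p.ne_ce (c := G) hk hv hv' h2
  · exact hne h2
  · exact h h2

/-- The walk through the corridor `K c m`. -/
theorem walk_K {c m k : ℕ} {U : Set (Sym2 V)} (hc : c < p.M) (hm : m ≤ 3)
    (hk : k < p.lG) (hk2 : p.lK < k) (h : CPs p c m m k U)
    (hend : ∀ U' : Set (Sym2 V), CPs p c (m + 1) m (k - p.lK) U' →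
      MW p.Adj U' (p.dst (K c m)) (p.cp G false (k - p.lK))) :
    MW p.Adj U (p.src (K c m)) (p.cp G false k) := by
  have hlG : p.len G = p.lG := rfl
  have hlK : ∀ r, p.len (K c r) = p.lK := fun _ => rfl
  have e0 : p.cp (K c m) true 0 = p.src (K c m) := by rw [Par.cp_zero]; rfl
  have e1 : p.cp (K c m) true p.lK = p.dst (K c m) := by
    rw [← hlK m, Par.cp_len]; rfl
  rw [← e0]
  refine trapped (c := K c m) (c' := G) ⟨hc, hm⟩ (by simp) true false p.lK 0 k U (by rw [hlK]; omega)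
    hk hk2 (fun j _ hj => h.kf m le_rfl hm j (by rw [hlK]; omega)) h.gb ?_
  intro U' _ _ h2 h3
  rw [zero_add, e1]
  have old : ∀ e, e ∉ U → (∀ j, j < p.lK → e ≠ p.ce (K c m) true j) →
      (∀ j, k - p.lK ≤ j → j < k → e ≠ p.ce G false j) → e ∉ U' := by
    intro e h4 h5 h6 h7
    rcases h3 e h7 with h8 | ⟨j, _, h8, h9⟩ | ⟨j, h8, h9, h10⟩
    · exact h4 h8
    · exact h5 j (by omega) h9
    · exact h6 j h8 h9 h10
  refine hend U' ⟨?_, ?_, ?_, ?_, ?_, h2⟩
  · intro r hr hr3 j hj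
    refine old _ (h.kf r (by omega) hr3 j hj) (fun j' hj' => ?_) (fun j' _ hj' => ?_)
    · exact p.ce_ne hj (by rw [hlK]; exact hj') (by simp; omega)
    · exact p.ce_ne hj (by omega) (by simp)
  · intro r hr hr3
    refine old _ (h.lf r hr hr3) (fun j' hj' => ?_) (fun j' _ hj' => ?_)
    · exact p.ne_ce (by rw [hlK]; exact hj') nln nln
    · exact p.ne_ce (by omega) nln nln
  · refine old _ h.Rf (fun j' hj' => ?_) (fun j' _ hj' => ?_)
    · exact p.ne_ce (by rw [hlK]; exact hj') nR nn1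
    · exact p.ne_ce (by omega) nR nn1
  · refine old _ h.nf (fun j' hj' => ?_) (fun j' _ hj' => ?_)
    · exact p.ne_ce (by rw [hlK]; exact hj') nn1 nn2
    · exact p.ne_ce (by omega) nn1 nn2
  · intro j hj
    refine old _ (h.gf j (by omega)) (fun j' hj' => ?_) (fun j' hj' hj'' h => ?_)
    · exact p.ce_ne (by omega) (by rw [hlK]; exact hj') (by simp)
    · have := p.ce_inj (c := G) (by omega) (by omega) h
      omega

/-- The walk along a literal edge. -/
theorem walk_lit (hT : p.Typed) {c m k : ℕ} {U : Set (Sym2 V)} (hc : c < p.M) (hm : m < 3)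
    (hk : k < p.lG) (hk2 : 1 ≤ k) (h : CPs p c (m + 1) m k U)
    (hend : ∀ U' : Set (Sym2 V), CPs p c (m + 1) (m + 1) (k - 1) U' →
      MW p.Adj U' (p.src (K c (m + 1))) (p.cp G false (k - 1))) :
    MW p.Adj U (p.dst (K c m)) (p.cp G false k) := by
  have hlG : p.len G = p.lG := rfl
  have e1 : p.dst (K c m) = ln (p.lane c m) (p.ai c m) (p.sd c m) := by simp [Par.dst, hm]
  have e2 : p.src (K c (m + 1)) = ln (p.lane c m) (p.ai c m + 1) (p.sd c m) := by simp [Par.src]
  have hadj : p.Adj (ln (p.lane c m) (p.ai c m) (p.sd c m))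
      (ln (p.lane c m) (p.ai c m + 1) (p.sd c m)) := by
    refine Or.inl (.lane _ _ _ _ ?_ (Or.inr (p.inn_ai hc)) (Or.inr (p.inn_ai1 hc)) (fun _ _ => rfl))
    have := p.ai_lt hc hm
    have := p.hLen
    omega
  rw [e1]
  refine tstep hadj (h.lf m le_rfl hm) hk2 hk h.gb ?_
  rw [← e2]
  refine hend _ ⟨?_, ?_, ?_, ?_, ?_, Or.inl rfl⟩
  · intro r hr hr3 j hj
    exact ce_old (by omega) hj (by simp) nln (e2 ▸ nln) (h.kf r hr hr3 j hj)
  · intro r hr hr3
    refine e_old (by omega) nln nln ?_ (h.lf r (by omega) hr3)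
    rw [e2]
    exact litE_ne hT hc hr3 hm (by omega)
  · refine e_old (by omega) nR nn1 ?_ h.Rf
    rw [e2]
    intro h
    rcases Sym2.eq_iff.1 h with ⟨h, _⟩ | ⟨h, _⟩ <;> simp at h
  · refine e_old (by omega) nn1 nn2 ?_ h.nf
    rw [e2]
    intro h
    rcases Sym2.eq_iff.1 h with ⟨h, _⟩ | ⟨h, _⟩ <;> simp at h
  · intro j hj
    exact cG_old (by omega) hj nln (e2 ▸ nln) (h.gf j (by omega))

/-- **Walking along the whole clause path.** -/
theorem fin_clause (hT : p.Typed) {c : ℕ} (hc : c < p.M) : ∀ (n m k : ℕ) (U : Set (Sym2 V)),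
    n + m = 3 → k < p.lG → (n + 1) * (p.lK + 1) < k → k % 2 = 0 → CPs p c m m k U →
    MW p.Adj U (p.src (K c m)) (p.cp G false k) := by
  have hlG : p.len G = p.lG := rfl
  have hK2 := p.hK2
  intro n
  induction n with
  | zero =>
    intro m k U hm hk hk2 heven h
    have hm3 : m = 3 := by omega
    subst hm3
    refine walk_K hc le_rfl hk (by omega) h (fun U' h' => ?_)
    have e1 : p.dst (K c 3) = R := by simp [Par.dst]
    rw [e1]
    refine tstep (Or.inl .Rn1) h'.Rf (by omega) (by omega) h'.gb ?_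
    refine fin_G1 (by omega) (by omega) (by omega) ?_ ?_ (Or.inl rfl)
    · refine e_old (by omega) nn1 nn2 ?_ h'.nf
      intro h
      rcases Sym2.eq_iff.1 h with ⟨h, _⟩ | ⟨_, h⟩ <;> simp at h
    · intro j hj
      exact cG_old (by omega) hj nR nn1 (h'.gf j (by omega))
  | succ n ih =>
    intro m k U hm hk hk2 heven h
    have e : (n + 1 + 1) * (p.lK + 1) = (n + 1) * (p.lK + 1) + (p.lK + 1) := by ring
    refine walk_K hc (by omega) hk (by omega) h (fun U' h' => ?_)
    refine walk_lit hT hc (by omega) (by omega) (by omega) h' (fun U'' h'' => ?_)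
    exact ih (m + 1) _ _ (by omega) (by omega) (by omega) (by omega) h''

end Pool.Agent.H49.TT
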