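import Pool.Agent.H49.TT.Clause

/-!
# The false case: stages, positions, the state of the formula
-/

namespace Pool.Agent.H49.TT

open Pool.Agent.H33.TT V Cor

variable {p : Par}

lemma succ_dm (i : ℕ) : ((i + 1) / p.P = i / p.P ∧ (i + 1) % p.P = i % p.P + 1) ∨
    (i % p.P + 1 = p.P ∧ (i + 1) / p.P = i / p.P + 1 ∧ (i + 1) % p.P = 0) := by
  have hP := p.P_pos
  have h1 := Nat.div_add_mod i p.P
  have h2 := Nat.mod_lt i hP
  by_cases h : i % p.P + 1 < p.P
  · left
    have e : i + 1 = (i / p.P) * p.P + (i % p.P + 1) := by rw [mul_comm]; omega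
    constructor
    · conv_lhs => rw [e]
      exact p.div_of h
    · conv_lhs => rw [e]
      exact p.mod_of h
  · right
    have e : i + 1 = (i / p.P + 1) * p.P + 0 := by rw [add_mul, mul_comm]; omega
    refine ⟨by omega, ?_, ?_⟩
    · conv_lhs => rw [e]
      exact p.div_of hP
    · conv_lhs => rw [e]
      exact p.mod_of hP

lemma add_dm (i : ℕ) {δ : ℕ} (hδ : δ < p.P) :
    ((i + δ) / p.P = i / p.P ∧ (i + δ) % p.P = i % p.P + δ) ∨
    ((i + δ) / p.P = i / p.P + 1 ∧ (i + δ) % p.P + p.P = i % p.P + δ) := by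
  have hP := p.P_pos
  have h1 := Nat.div_add_mod i p.P
  have h2 := Nat.mod_lt i hP
  by_cases h : i % p.P + δ < p.P
  · left
    have e : i + δ = (i / p.P) * p.P + (i % p.P + δ) := by rw [mul_comm]; omega
    constructor
    · conv_lhs => rw [e]
      exact p.div_of h
    · conv_lhs => rw [e]
      exact p.mod_of h
  · right
    have e : i + δ = (i / p.P + 1) * p.P + (i % p.P + δ - p.P) := by rw [add_mul, mul_comm]; omega
    constructor
    · conv_lhs => rw [e]
      exact p.div_of (by omega)
    · have : (i + δ) % p.P = i % p.P + δ - p.P := by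
        conv_lhs => rw [e]
        exact p.mod_of (by omega)
      omega

/-- The number of decided stages before position `i`. -/
def DD (p : Par) (i : ℕ) : ℕ := i / p.P + (if p.inn i then 1 else 0)

lemma DD_inn {i : ℕ} (h : p.sg < i % p.P) : DD p i = i / p.P + 1 := by
  unfold DD; rw [if_pos (show p.inn i from h)]
lemma DD_not {i : ℕ} (h : i % p.P ≤ p.sg) : DD p i = i / p.P := by
  unfold DD; rw [if_neg (show ¬ p.inn i by unfold Par.inn; omega), add_zero]

lemma DD_succ (i : ℕ) : DD p (i + 1) = DD p i ∨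
    (DD p (i + 1) = DD p i + 1 ∧ i % p.P = p.sg) := by
  have hP := p.hP'
  have h2 := Nat.mod_lt i p.P_pos
  rcases succ_dm (p := p) i with ⟨h3, h4⟩ | ⟨h3, h4, h5⟩
  · rcases Nat.lt_or_ge p.sg (i % p.P) with h | h
    · left; rw [DD_inn h, DD_inn (by omega), h3]
    · rcases Nat.lt_or_ge (i % p.P) p.sg with h' | h'
      · left; rw [DD_not h, DD_not (by omega), h3]
      · right
        exact ⟨by rw [DD_not h, DD_inn (by omega), h3], by omega⟩
  · rcases Nat.lt_or_ge p.sg (i % p.P) with h | h
    · left; rw [DD_inn h, DD_not (by omega), h4]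
    · right
      exact ⟨by rw [DD_not h, DD_not (by omega), h4], by omega⟩

lemma DD_le {i : ℕ} (hi : i ≤ p.Len) : DD p i ≤ p.N := by
  have hP := p.hP'
  have hL := p.hLen
  have h1 := Nat.div_add_mod i p.P
  have h2 := Nat.mod_lt i p.P_pos
  by_contra hcon
  rcases Nat.lt_or_ge p.sg (i % p.P) with h | h
  · rw [DD_inn h] at hcon
    have h3 : p.N ≤ i / p.P := by omega
    have h4 : p.P * p.N ≤ p.P * (i / p.P) := Nat.mul_le_mul_left _ h3
    rw [mul_comm p.P p.N] at h4
    omega
  · rw [DD_not h] at hcon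
    have h3 : p.N + 1 ≤ i / p.P := by omega
    have h4 : p.P * (p.N + 1) ≤ p.P * (i / p.P) := Nat.mul_le_mul_left _ h3
    rw [mul_add, mul_comm p.P p.N] at h4
    omega

lemma DD_end {j : ℕ} (hj : j ≤ p.sg) : DD p (p.N * p.P + j) = p.N := by
  have hP := p.hP'
  rw [DD_not (by rw [p.mod_of (by omega)]; exact hj), p.div_of (by omega)]

/-- the lag -/
def Lag (p : Par) (δ : ℕ) : Prop := δ = 2 * p.M + 5 ∨ δ = 2 * p.M + 6

lemma lag1 {δ i : ℕ} (hδ : Lag p δ) (h : i % p.P = p.sg) : DD p (i + δ) = DD p i + 1 := by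
  have hP := p.hP'
  have hsg := p.hsg
  unfold Lag at hδ
  rcases add_dm (p := p) i (δ := δ) (by omega) with ⟨h1, h2⟩ | ⟨h1, h2⟩
  · have := Nat.mod_lt (i + δ) p.P_pos
    omega
  · rw [DD_not (i := i) (by omega), DD_not (by omega), h1]

lemma lag2 {δ i : ℕ} (hδ : Lag p δ) (h : (i + δ) % p.P = p.sg) :
    DD p (i + δ) = DD p (i + 1) := by
  have hP := p.hP'
  have hsg := p.hsg
  unfold Lag at hδ
  have hm := Nat.mod_lt i p.P_pos
  rcases add_dm (p := p) i (δ := δ) (by omega) with ⟨h1, h2⟩ | ⟨h1, h2⟩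
  · rcases succ_dm (p := p) i with ⟨h3, h4⟩ | ⟨h3, h4, h5⟩
    · rw [DD_not (by omega), DD_not (by omega), h1, h3]
    · omega
  · omega

/-- The state of the formula: the first player is at `i1`, the second player at `i2`. -/
def QI (p : Par) (i1 i2 : ℕ) (xs ys : ℕ → Bool) : Prop :=
  (DD p i1 = DD p i2 ∧ ¬ p.QT (p.N - DD p i2) (DD p i2) xs ys) ∨
  (DD p i1 = DD p i2 + 1 ∧
    ∃ b, ¬ p.QT (p.N - DD p i1) (DD p i1) xs (Function.update ys (DD p i2) b))

lemma lp_update {l : Bool} {xs : ℕ → Bool} {n i : ℕ} {a : Bool} (h : i ≤ n * p.P + p.sg) :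
    p.lp l (Function.update xs n a) i = p.lp l xs i := by
  unfold Par.lp
  by_cases hi : p.inn i
  · rw [if_pos hi, if_pos hi]
    have : i / p.P ≠ n := by
      rintro rfl
      have h1 := Nat.div_add_mod i p.P
      unfold Par.inn at hi
      rw [mul_comm] at h1
      omega
    rw [Function.update_of_ne this]
  · rw [if_neg hi, if_neg hi]

/-- The choice of the second player. -/
lemma A_choice {δ i : ℕ} (hδ : Lag p δ) {xs ys : ℕ → Bool} (h : QI p (i + δ) i xs ys) :
    ∃ ys', (∀ j, j ≤ i → p.lp false ys' j = p.lp false ys j) ∧ QI p (i + δ) (i + 1) xs ys' := by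
  rcases DD_succ (p := p) i with h1 | ⟨h1, h2⟩
  · refine ⟨ys, fun _ _ => rfl, ?_⟩
    unfold QI at h ⊢
    rw [h1]
    exact h
  · have h3 := lag1 hδ h2
    rcases h with ⟨h4, _⟩ | ⟨_, b, hb⟩
    · omega
    · refine ⟨Function.update ys (DD p i) b, ?_, ?_⟩
      · intro j hj
        refine lp_update ?_
        rw [DD_not (by omega)]
        have h5 := Nat.div_add_mod i p.P
        rw [mul_comm] at h5
        omega
      · left
        rw [h3] at hb
        rw [h1]
        exact ⟨h3, hb⟩

/-- The choice of the first player. -/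
lemma B_choice {δ i : ℕ} (hδ : Lag p δ) {xs ys : ℕ → Bool} {s' : Bool} (hi : i + δ < p.Len)
    (h : QI p (i + δ) (i + 1) xs ys) (hok : p.ok (i + δ + 1) s')
    (hs : p.inn (i + δ) → p.inn (i + δ + 1) →
      (if p.inn (i + δ) then xs ((i + δ) / p.P) else false) = s') :
    ∃ xs', (∀ j, j ≤ i + δ → p.lp true xs' j = p.lp true xs j) ∧
      p.lp true xs' (i + δ + 1) = ln true (i + δ + 1) s' ∧
      QI p (i + δ + 1) (i + 1) xs' ys := by
  have hP := p.hP'
  rcases DD_succ (p := p) (i + δ) with h1 | ⟨h1, h2⟩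
  · refine ⟨xs, fun _ _ => rfl, ?_, ?_⟩
    · unfold Par.lp
      by_cases hin : p.inn (i + δ + 1)
      · rw [if_pos hin]
        have hin0 : p.inn (i + δ) := by
          by_contra hcon
          unfold Par.inn at hin hcon
          rw [DD_inn hin, DD_not (by omega)] at h1
          rcases succ_dm (p := p) (i + δ) with ⟨h3, h4⟩ | ⟨h3, h4, h5⟩ <;> omega
        have := hs hin0 hin
        rw [if_pos hin0] at this
        rw [← this, p.inn_div hin0 hin]
      · rw [if_neg hin]
        rcases hok with h | h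
        · rw [h]
        · exact absurd h hin
    · unfold QI at h ⊢
      rw [h1]
      exact h
  · have h3 := lag2 hδ h2
    have h4 := DD_le (p := p) (i := i + δ + 1) (by omega)
    have h5 : DD p (i + δ) = (i + δ) / p.P := DD_not (by omega)
    rcases h with ⟨_, h6⟩ | ⟨h6, _⟩
    · refine ⟨Function.update xs (DD p (i + δ)) s', ?_, ?_, ?_⟩
      · intro j hj
        refine lp_update ?_
        rw [h5]
        have h7 := Nat.div_add_mod (i + δ) p.P
        rw [mul_comm] at h7
        omega
      · unfold Par.lp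
        by_cases hin : p.inn (i + δ + 1)
        · rw [if_pos hin]
          have : (i + δ + 1) / p.P = DD p (i + δ) := by
            rw [h5]
            unfold Par.inn at hin
            rcases succ_dm (p := p) (i + δ) with ⟨h7, _⟩ | ⟨_, _, h7⟩
            · exact h7
            · omega
          rw [this, Function.update_self]
        · rw [if_neg hin]
          rcases hok with h | h
          · rw [h]
          · exact absurd h hin
      · right
        rw [← h3] at h6 ⊢
        refine ⟨h1, ?_⟩
        have e : p.N - DD p (i + δ) = (p.N - DD p (i + δ + 1)) + 1 := by omega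
        rw [e] at h6
        unfold Par.QT at h6
        push Not at h6
        obtain ⟨b, hb⟩ := h6 s'
        refine ⟨b, ?_⟩
        rw [← h1] at hb
        exact hb
    · omega

end Pool.Agent.H49.TT
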