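import Pool.Agent.H33.TT.Slow4

/-!
# The false case: forced moves and the final runs of the second player
-/

namespace Pool.Agent.H49.TT

open Pool.Agent.H33.TT V Cor

variable {p : Par}

/-- A move while the opponent is inside of a corridor and cannot turn around. -/
theorem tstep {c' : Cor} {d' : Bool} {k : ℕ} {U : Set (Sym2 V)} {a a' : V} (ha : p.Adj a a')
    (hu : s(a, a') ∉ U) (hk1 : 1 ≤ k) (hk2 : k < p.len c') (hb : p.ce c' d' k ∈ U)
    (h : MW p.Adj (insert (p.ce c' d' (k - 1)) (insert s(a, a') U)) a' (p.cp c' d' (k - 1))) :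
    MW p.Adj U a (p.cp c' d' k) := by
  refine MW.intro a' ha hu ?_
  intro b' hadj hu'
  have := p.cp_fwd hk1 hk2 (Or.inr hb) hadj hu'
  subst this
  rw [← p.ce_pred hk1]
  exact h

/-- Walking along a path while the opponent is inside of a corridor. -/
theorem ptrap {c' : Cor} (d' : Bool) : ∀ (n : ℕ) (a : ℕ → V) (k : ℕ) (U : Set (Sym2 V)),
    (∀ i, i < n → p.Adj (a i) (a (i + 1))) → (∀ i, i < n → s(a i, a (i + 1)) ∉ U) →
    (∀ i j, i < j → j < n → s(a i, a (i + 1)) ≠ s(a j, a (j + 1))) →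
    (∀ i j, i < n → j < p.len c' → s(a i, a (i + 1)) ≠ p.ce c' d' j) →
    k < p.len c' → n < k → p.ce c' d' k ∈ U →
    (∀ U' : Set (Sym2 V), U ⊆ U' → (∀ i, i < n → s(a i, a (i + 1)) ∈ U') →
      p.ce c' d' (k - n) ∈ U' →
      (∀ e ∈ U', e ∈ U ∨ (∃ i, i < n ∧ e = s(a i, a (i + 1))) ∨
        (∃ j, k - n ≤ j ∧ j < k ∧ e = p.ce c' d' j)) →
      MW p.Adj U' (a n) (p.cp c' d' (k - n))) →
    MW p.Adj U (a 0) (p.cp c' d' k) := by
  intro n
  induction n with
  | zero =>
    intro a k U _ _ _ _ _ _ hb hend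
    exact hend U le_rfl (fun i h => by omega) hb (fun e he => Or.inl he)
  | succ n ih =>
    intro a k U hadj hfree hdist hG hk hn hb hend
    refine tstep (hadj 0 (by omega)) (hfree 0 (by omega)) (by omega) hk hb ?_
    refine ih (fun i => a (i + 1)) (k - 1) _ (fun i hi => hadj (i + 1) (by omega)) ?_
      (fun i j h1 h2 => hdist (i + 1) (j + 1) (by omega) (by omega))
      (fun i j h1 h2 => hG (i + 1) j (by omega) h2) (by omega) (by omega) (Or.inl rfl) ?_
    · intro i hi hmem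
      rcases hmem with hmem | hmem | hmem
      · exact hG (i + 1) (k - 1) (by omega) (by omega) hmem
      · exact hdist 0 (i + 1) (by omega) (by omega) hmem.symm
      · exact hfree (i + 1) (by omega) hmem
    · intro U' hU' h1 h2 h3
      have e2 : k - 1 - n = k - (n + 1) := by omega
      rw [e2] at h2 h3 ⊢
      refine hend U' ((Set.subset_insert _ _).trans ((Set.subset_insert _ _).trans hU')) ?_ h2 ?_
      · intro i hi
        rcases Nat.eq_zero_or_pos i with rfl | h0
        · exact hU' (Or.inr (Or.inl rfl))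
        · have := h1 (i - 1) (by omega)
          rw [show i - 1 + 1 = i by omega] at this
          exact this
      · intro e he
        rcases h3 e he with (h | h | h) | ⟨i, hi, rfl⟩ | ⟨j, hj1, hj2, rfl⟩
        · exact Or.inr (Or.inr ⟨k - 1, by omega, by omega, h⟩)
        · exact Or.inr (Or.inl ⟨0, by omega, h⟩)
        · exact Or.inl h
        · exact Or.inr (Or.inl ⟨i + 1, by omega, rfl⟩)
        · exact Or.inr (Or.inr ⟨j, hj1, by omega, rfl⟩)

lemma adj_Qn1 : p.Adj (ln false p.Len false) n1 := Or.inl .Qn1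
lemma adj_n12 : p.Adj n1 n2 := Or.inl .n1n2

/-- The opponent comes towards `n2` in `G`, the number of free edges is odd. -/
theorem fin_G {U : Set (Sym2 V)} {k : ℕ} (hk : k < p.lG) (hodd : k % 2 = 1)
    (hfree : ∀ j, j < k → p.ce G false j ∉ U) (hb : p.ce G false k ∈ U) :
    MW p.Adj U n2 (p.cp G false k) := by
  rw [← p.cp_Gf0]
  exact headon (c := G) trivial false ((k - 1) / 2) 0 k U (by omega) hk
    (fun j _ hj => hfree j hj) hb

/-- Vertices `Q`, `n1`, `n2` are not inside of a corridor. -/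
lemma nQ {c : Cor} : ¬ inC c (ln false p.Len false) := by simp [inC]
lemma nn1 {c : Cor} : ¬ inC c n1 := by simp [inC]
lemma nn2 {c : Cor} : ¬ inC c n2 := by simp [inC]
lemma nR {c : Cor} : ¬ inC c R := by simp [inC]
lemma nln {c : Cor} {l : Bool} {i : ℕ} {s : Bool} : ¬ inC c (ln l i s) := by simp [inC]

/-- The second player is on `n1`, the opponent comes towards `n2` in `G`, parity good. -/
theorem fin_G1 {U : Set (Sym2 V)} {k : ℕ} (hk : k < p.lG) (hodd : k % 2 = 0) (hk3 : 1 ≤ k)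
    (hn : s(n1, n2) ∉ U) (hfree : ∀ j, j < k → p.ce G false j ∉ U) (hb : p.ce G false k ∈ U) :
    MW p.Adj U n1 (p.cp G false k) := by
  have hl : p.len G = p.lG := rfl
  refine tstep adj_n12 hn hk3 (by omega) hb ?_
  refine fin_G (by omega) (by omega) ?_ (Or.inl rfl)
  intro j hj hmem
  rcases hmem with hmem | hmem | hmem
  · have := p.ce_inj (c := G) (by omega) (by omega) hmem
    omega
  · exact p.ne_ce (c := G) (by omega) nn1 nn2 hmem.symm
  · exact hfree j (by omega) hmem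

/-- **The cut from `Q`.** All of `J` and `G` is free, the opponent is deep inside of a clause
corridor. -/
theorem cut_Q {U : Set (Sym2 V)} {c r : ℕ} {d : Bool} {k : ℕ} (hJG : p.JG U)
    (hq : s(ln false p.Len false, n1) ∉ U) (hn : s(n1, n2) ∉ U)
    (hk : k < p.lK) (hk2 : p.lJ + 4 < k) (hb : p.ce (K c r) d k ∈ U) :
    MW p.Adj U (ln false p.Len false) (p.cp (K c r) d k) := by
  have hlJ : p.len J = p.lJ := rfl
  have hlG : p.len G = p.lG := rfl
  have hlK : p.len (K c r) = p.lK := rfl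
  have hJge := p.len_ge J
  have hGge := p.len_ge G
  have hGG := p.hG
  refine tstep adj_Qn1 hq (by omega) hk hb ?_
  refine tstep adj_n12 ?_ (by omega) (by omega) (Or.inl rfl) ?_
  · rintro (h | h | h)
    · exact p.ne_ce (c := K c r) (by omega) nn1 nn2 h
    · rcases Sym2.eq_iff.1 h with ⟨h, _⟩ | ⟨h, h'⟩
      · simp at h
      · simp at h'
    · exact hn h
  set U2 := insert (p.ce (K c r) d (k - 1 - 1)) (insert s(n1, n2)
    (insert (p.ce (K c r) d (k - 1)) (insert s(ln false p.Len false, n1) U))) with hU2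
  have hJG2 : p.JG U2 := by
    have h1 : ∀ (c' : Cor) (j : ℕ), c' ≠ K c r → j < p.len c' → p.ce c' true j ∉ U →
        p.ce c' true j ∉ U2 := by
      intro c' j hne hj h
      rintro (h1 | h1 | h1 | h1 | h1)
      · exact p.ce_ne hj (by omega) hne h1
      · exact p.ne_ce hj nn1 nn2 h1.symm
      · exact p.ce_ne hj (by omega) hne h1
      · exact p.ne_ce hj nQ nn1 h1.symm
      · exact h h1
    exact ⟨fun j hj => h1 J j (by simp) hj (hJG.1 j hj), fun j hj => h1 G j (by simp) hj (hJG.2 j hj)⟩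
  have hn12 : s(n1, n2) ∈ U2 := Or.inr (Or.inl rfl)
  rw [← p.cp_Jf0]
  refine trapped (c := J) trivial (by simp) false d p.lJ 0 (k - 1 - 1) U2 (by omega) (by omega)
    (by omega) ?_ (Or.inl rfl) ?_
  · intro j _ hj; exact p.cfree_rev hJG2.1 false (by omega)
  intro U' hU' h1 h2 h3
  rw [zero_add, p.cp_Jr, ← p.cp_G0]
  have hx : ¬ inC G (p.cp (K c r) d (k - 1 - 1 - p.lJ)) ∧ ¬ inC J (p.cp (K c r) d (k - 1 - 1 - p.lJ)) ∧
      p.cp (K c r) d (k - 1 - 1 - p.lJ) ≠ n2 ∧
      p.cp (K c r) d (k - 1 - 1 - p.lJ) ≠ ln true p.Len false := by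
    rw [p.cp_mid (c := K c r) (by omega) (by omega)]
    simp [inC]
  have hJ0 : p.ce J true 0 ∈ U' := by
    have : p.ce J true 0 = p.ce J false (p.lJ - 1) := by
      rw [show (true : Bool) = !false from rfl, p.ce_rev (by omega)]; congr 1
    rw [this]
    exact h1 _ (by omega) (by omega)
  refine gfinal true p.lG le_rfl (fun i U b => s(n1, n2) ∈ U ∧ p.ce J true 0 ∈ U ∧
    (1 ≤ i → p.ce G true 0 ∈ U) ∧ b ≠ n2 ∧ ¬ inC J b ∧ ¬ inC G b ∧
    (i = 0 → b ≠ ln true p.Len false)) ?_ 0 U' _ (by omega) ?_ ?_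
  · rintro i U b b' ⟨m1, m2, m3, m4, m5, m6, m7⟩ hi hb hu hf
    left
    have hg0 : p.ce G true 0 ∈ insert (p.ce G true i) U := by
      rcases Nat.eq_zero_or_pos i with rfl | h0
      · exact Or.inl rfl
      · exact Or.inr (m3 h0)
    have hb'J : ¬ inC J b' := by
      intro h
      rcases p.nb_inJ hb h m5 with ⟨h1, h2⟩ | ⟨h1, _⟩
      · subst h1 h2
        exact hu (Or.inr (p.ceJ0 ▸ m2))
      · exact m4 h1
    have hb'G : ¬ inC G b' := by
      intro h
      rcases p.nb_inG hb h m6 with ⟨h1, h2⟩ | ⟨h1, _⟩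
      · rcases Nat.eq_zero_or_pos i with rfl | h0
        · exact m7 rfl h1
        · subst h1 h2
          exact hu (p.ceG0 ▸ hg0)
      · exact m4 h1
    refine ⟨m6, hb'G, mem3 m1, mem3 m2, fun _ => Or.inr hg0, ?_, hb'J, hb'G, by omega⟩
    rintro rfl
    rcases p.nb_n2 hb.symm with rfl | rfl | rfl
    · exact hu (Or.inr m1)
    · exact m5 ⟨_, rfl⟩
    · exact m6 ⟨_, rfl⟩
  · intro j _ hj hmem
    rcases h3 _ hmem with h | ⟨j', _, h4, h5⟩ | ⟨j', _, h4, h5⟩
    · exact hJG2.2 j (by omega) h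
    · exact p.ce_ne (c := G) (c' := J) (by omega) (by omega) (by simp) h5
    · exact p.ce_ne (c := G) (c' := K c r) (by omega) (by omega) (by simp) h5
  · exact ⟨hU' hn12, hJ0, by omega, hx.2.2.1, hx.2.1, hx.1, fun _ => hx.2.2.2⟩

/-- **The opponent is in `J` and comes towards `n2`.** -/
theorem fin_J {U : Set (Sym2 V)} {k : ℕ} (hG : p.cfree G U)
    (hq : s(ln false p.Len false, n1) ∉ U) (hn : s(n1, n2) ∉ U)
    (hk : k < p.lJ) (hk2 : 4 ≤ k) (hb : p.ce J false k ∈ U) :
    MW p.Adj U (ln false p.Len false) (p.cp J false k) := by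
  have hlJ : p.len J = p.lJ := rfl
  have hlG : p.len G = p.lG := rfl
  have hJge := p.len_ge J
  have hGge := p.len_ge G
  have hGG := p.hG
  refine tstep adj_Qn1 hq (by omega) hk hb ?_
  refine tstep adj_n12 ?_ (by omega) (by omega) (Or.inl rfl) ?_
  · rintro (h | h | h)
    · exact p.ne_ce (c := J) (by omega) nn1 nn2 h
    · rcases Sym2.eq_iff.1 h with ⟨h, _⟩ | ⟨h, h'⟩
      · simp at h
      · simp at h'
    · exact hn h
  set U2 := insert (p.ce J false (k - 1 - 1)) (insert s(n1, n2)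
    (insert (p.ce J false (k - 1)) (insert s(ln false p.Len false, n1) U))) with hU2
  have hG2 : p.cfree G U2 := by
    intro j hj
    rintro (h1 | h1 | h1 | h1 | h1)
    · exact p.ce_ne hj (by omega) (by simp) h1
    · exact p.ne_ce hj nn1 nn2 h1.symm
    · exact p.ce_ne hj (by omega) (by simp) h1
    · exact p.ne_ce hj nQ nn1 h1.symm
    · exact hG j hj h1
  have hn12 : s(n1, n2) ∈ U2 := Or.inr (Or.inl rfl)
  rw [← p.cp_Gf0]
  refine gfinal false p.lG le_rfl (fun i U b => s(n1, n2) ∈ U ∧ (1 ≤ i → p.ce G false 0 ∈ U) ∧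
    ((∃ k, 1 ≤ k ∧ k < p.lJ ∧ b = p.cp J false k ∧ p.ce J false k ∈ U) ∨
      (1 ≤ i ∧ b = n2 ∧ p.ce J false 0 ∈ U))) ?_ 0 U2 _ (by omega)
    (fun j _ hj => p.cfree_rev hG2 false (by omega))
    ⟨hn12, by omega, Or.inl ⟨k - 1 - 1, by omega, by omega, rfl, Or.inl rfl⟩⟩
  rintro i U b b' ⟨m1, m2, h⟩ hi hb hu hf
  left
  have hg : p.ce G false 0 ∈ insert (p.ce G false i) U := by
    rcases Nat.eq_zero_or_pos i with rfl | h0
    · exact Or.inl rfl
    · exact Or.inr (m2 h0)
  rcases h with ⟨k, h1, h2, rfl, hk⟩ | ⟨h0, rfl, hj⟩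
  · have := p.cp_fwd (c := J) h1 h2 (Or.inr hk) hb hu
    subst this
    refine ⟨p.cp_nG_J (by omega), p.cp_nG_J (by omega), mem3 m1, fun _ => Or.inr hg, ?_⟩
    rcases Nat.lt_or_ge 1 k with h3 | h3
    · exact Or.inl ⟨k - 1, by omega, by omega, rfl, p.ce_new h1⟩
    · have : k = 1 := by omega
      subst this
      have hn := p.ce_new (c := J) (d := false) (U := insert (p.ce G false i) U) (k := 1) le_rfl
      rw [Nat.sub_self] at hn ⊢
      exact Or.inr ⟨by omega, p.cp_Jf0, hn⟩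
  · exfalso
    rcases p.nb_n2 hb with rfl | rfl | rfl
    · rw [Sym2.eq_swap] at hu; exact hu (Or.inr m1)
    · rw [← p.ceJf0] at hu; exact hu (Or.inr hj)
    · rw [← p.ceGf0] at hu; exact hu hg

end Pool.Agent.H49.TT
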