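import Pool.Agent.H49.TT.Track

/-!
# The false case: the race in the lanes
-/

namespace Pool.Agent.H49.TT

open Pool.Agent.H33.TT V Cor

variable {p : Par}

/-- The moves of the first player on track. -/
theorem B_opts {i1 : ℕ} {xs : ℕ → Bool} {U : Set (Sym2 V)} {b' : V} (h0 : 1 ≤ i1)
    (hi : i1 < p.Len) (hlow : p.le true xs (i1 - 1) ∈ U)
    (hadj : p.Adj (p.lp true xs i1) b') (hu : s(p.lp true xs i1, b') ∉ U) :
    (∃ s', b' = ln true (i1 + 1) s' ∧ p.ok (i1 + 1) s' ∧
      (p.inn i1 → p.inn (i1 + 1) → (if p.inn i1 then xs (i1 / p.P) else false) = s')) ∨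
    (∃ c r d, b' = p.cp (K c r) d (p.lK - 1) ∧
      s(p.lp true xs i1, b') = p.ce (K c r) d (p.lK - 1)) ∨
    (∃ n, n < p.N ∧ 1 ≤ 2 * p.M ∧ i1 = n * p.P + p.sg + 2 * p.M + 1 ∧
      b' = ln true (n * p.P + p.sg + 2 * p.M) (!xs n)) := by
  have hP := p.hP'
  have hsg := p.hsg
  have hLen := p.hLen
  unfold Par.lp at hadj
  rcases p.nb_ln hadj with ⟨τ, rfl, h3, h4, h5, h6⟩ | ⟨τ, i', h7, rfl, h3, h4, h5, h6⟩ | ⟨h, _⟩ |
      ⟨h, _⟩ | ⟨h, _⟩ | ⟨_, _, h, _⟩ | h
  · exact Or.inl ⟨τ, rfl, h5, h6⟩
  · right; right
    have e : i1 - 1 = i' := by omega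
    rw [e] at hlow
    have hτ : τ ≠ (if p.inn i' then xs (i' / p.P) else false) := by
      intro h8
      apply hu
      have : ln true i' τ = p.lp true xs i' := by unfold Par.lp; rw [h8]
      rw [this, Sym2.eq_swap, h7]
      exact hlow
    have hin : p.inn i' := by
      rcases h5 with h8 | h8
      · by_contra hcon
        rw [if_neg hcon] at hτ
        exact hτ h8
      · exact h8
    rw [if_pos hin] at hτ
    have hin1 : ¬ p.inn i1 := by
      intro h8
      have h9 := h6 hin h8
      rw [if_pos h8] at h9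
      apply hτ
      rw [h9, h7, p.inn_div hin (h7 ▸ h8)]
    have h10 := Nat.div_add_mod i' p.P
    have h11 := Nat.mod_lt i' p.P_pos
    unfold Par.inn at hin hin1
    rw [h7] at hin1
    have h12 : i' % p.P + 1 = p.P := by
      rcases succ_dm (p := p) i' with ⟨_, h13⟩ | ⟨h13, _⟩
      · omega
      · exact h13
    rw [mul_comm] at h10
    refine ⟨i' / p.P, ?_, by omega, by omega, ?_⟩
    · by_contra hcon
      have h14 : p.N * p.P ≤ (i' / p.P) * p.P := Nat.mul_le_mul_right _ (by omega)
      omega
    · have h15 : i' = i' / p.P * p.P + p.sg + 2 * p.M := by omega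
      have h16 : τ = !xs (i' / p.P) := by
        revert hτ
        cases τ <;> cases xs (i' / p.P) <;> simp
      rw [h16]
      rw [← h15]
  · omega
  · omega
  · omega
  · simp at h
  · exact Or.inr (Or.inl (K_entry h))

/-- **The race in the lanes.** -/
theorem on_lane (hT : p.Typed) {δ : ℕ} (hδ : Lag p δ) : ∀ (n i : ℕ) (xs ys : ℕ → Bool)
    (U : Set (Sym2 V)), i + δ + n = p.Len → OT p δ i xs ys U →
    MW p.Adj U (p.lp false ys i) (p.lp true xs (i + δ)) := by
  have hKK := p.hK
  have hLen := p.hLen
  have hsg := p.hsg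
  have hP := p.hP'
  have hδ2 : 5 ≤ δ ∧ 2 * p.M + 5 ≤ δ ∧ δ + 3 ≤ p.sg := by unfold Lag at hδ; omega
  intro n
  induction n with
  | zero =>
    intro i xs ys U hi h
    exact at_h hT hδ (by omega) h
  | succ n ih =>
    intro i xs ys U hi h
    obtain ⟨ys', hy1, hy2⟩ := A_choice hδ h.q
    have hle : ∀ j, j < i → p.le false ys' j = p.le false ys j := by
      intro j hj
      unfold Par.le
      rw [hy1 j (by omega), hy1 (j + 1) (by omega)]
    have hup : Up p (i + δ) i xs ys' U := by
      intro e he
      rcases h.up e he with h1 | h1 | ⟨j, hj, h1⟩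
      · exact Or.inl h1
      · exact Or.inr (Or.inl h1)
      · exact Or.inr (Or.inr ⟨j, hj, by rw [hle j hj]; exact h1⟩)
    have hA : s(p.lp false ys' i, p.lp false ys' (i + 1)) ∉ U := by
      intro hmem
      rcases hup _ hmem with h1 | ⟨j', _, h1⟩ | ⟨j', h2, h1⟩
      · exact nW nwln nwln h1
      · exact le_lane h1.symm
      · have := le_eq (p := p) (l := false) (xs := ys') (xs' := ys') h1
        omega
    rw [← hy1 i le_rfl]
    refine MW.intro (p.lp false ys' (i + 1)) (p.lp_adj false ys' (by omega)) hA ?_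
    intro b' hb hu
    have hq0 : s(ln false p.Len false, n1) ∉ U := h.up.free nwln nwn1 (by simp)
    have hn0 : s(n1, n2) ∉ U := h.up.free nwn1 nwn2 (by simp)
    have hbn : nL (p.lp true xs (i + δ)) := nL_ln _ _
    have hoff : OM p (p.Len - (i + 1)) (insert s(p.lp true xs (i + δ), b')
        (insert s(p.lp false ys' i, p.lp false ys' (i + 1)) U)) b' →
        MW p.Adj (insert s(p.lp true xs (i + δ), b')
          (insert s(p.lp false ys' i, p.lp false ys' (i + 1)) U)) (p.lp false ys' (i + 1)) b' := by
      intro hm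
      exact off_lane (p.Len - (i + 1)) (i + 1) _ _ _ (by omega) (p.lp_ok ys' (i + 1))
        (Fr_road h.up.Fr hbn) (Qn_road hbn hq0) (nn_road hbn hn0) hm
    have hJG2 : ∀ v, nJG v → p.JG (insert s(p.lp true xs (i + δ), v)
        (insert s(p.lp false ys' i, p.lp false ys' (i + 1)) U)) := fun v hv =>
      (h.up.JG.ins (nJG_ln _ _ _) (nJG_ln _ _ _)).ins (nJG_ln _ _ _) hv
    rcases B_opts (U := insert s(p.lp false ys' i, p.lp false ys' (i + 1)) U) (by omega) (by omega)
      (Or.inr (h.low _ (by omega))) hb hu with ⟨s', rfl, h1, h2⟩ | ⟨c, r, d, h1, h2⟩ |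
      ⟨m, hm, hM, h1, h2⟩
    · -- on track
      obtain ⟨xs', hx1, hx2, hx3⟩ := B_choice hδ (by omega) hy2 h1 h2
      have hlx : ∀ j, j < i + δ → p.le true xs' j = p.le true xs j := by
        intro j hj
        unfold Par.le
        rw [hx1 j (by omega), hx1 (j + 1) (by omega)]
      have hnew : s(p.lp true xs (i + δ), ln true (i + δ + 1) s') = p.le true xs' (i + δ) := by
        unfold Par.le
        rw [hx1 _ le_rfl, hx2]
      have e1 : i + δ + 1 = i + 1 + δ := by omega
      rw [hnew, ← hx2, e1]
      refine ih (i + 1) xs' ys' _ (by omega) ⟨?_, ?_, ?_⟩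
      · intro j hj
        rcases Nat.lt_or_ge j (i + δ) with h3 | h3
        · rw [hlx j h3]
          exact Or.inr (Or.inr (h.low j h3))
        · have : j = i + δ := by omega
          rw [this]
          exact Or.inl rfl
      · intro e he
        rcases he with he | he | he
        · exact Or.inr (Or.inl ⟨i + δ, by omega, he⟩)
        · exact Or.inr (Or.inr ⟨i, by omega, he⟩)
        · rcases hup e he with h3 | ⟨j, hj, h3⟩ | ⟨j, hj, h3⟩
          · exact Or.inl h3
          · exact Or.inr (Or.inl ⟨j, by omega, by rw [hlx j hj]; exact h3⟩)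
          · exact Or.inr (Or.inr ⟨j, by omega, h3⟩)
      · rw [← e1]; exact hx3
    · -- into a clause corridor
      apply hoff
      have hjg := hJG2 b' (by rw [h1]; exact p.cp_nJG_K (by omega) (by omega))
      have hbb : p.ce (K c r) d (p.lK - 1) ∈ insert s(p.lp true xs (i + δ), b')
          (insert s(p.lp false ys' i, p.lp false ys' (i + 1)) U) := Or.inl h2.symm
      rw [h1] at hjg hbb ⊢
      exact .inK c r d (p.lK - 1) (by omega) hbb (by omega) hjg
    · -- backwards
      apply hoff
      have hin : p.inn (m * p.P + p.sg + 1) := inn_of le_rfl (by omega)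
      have hbx : p.lp true xs (i + δ) = ln true (m * p.P + p.sg + 2 * p.M + 1) false := by
        unfold Par.lp
        rw [h1, if_neg]
        rw [show m * p.P + p.sg + 2 * p.M + 1 = (m + 1) * p.P + 0 by rw [add_mul]; omega]
        exact not_inn_of (by omega)
      have hmm : ∀ {e}, e ∈ U → e ∈ insert s(p.lp true xs (i + δ), b')
          (insert s(p.lp false ys' i, p.lp false ys' (i + 1)) U) := fun h => Or.inr (Or.inr h)
      have hjg := hJG2 b' (by rw [h2]; exact nJG_ln _ _ _)
      subst h2
      refine .back m (2 * p.M) (!xs m) hm hM le_rfl ?_ ?_ ?_ (by omega) hjg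
      · intro τ h3 h4
        left
        have hτ : τ = false := by
          rcases h4 with h5 | h5
          · exact h5
          · exfalso
            rw [show m * p.P + p.sg + 2 * p.M + 1 = (m + 1) * p.P + 0 by rw [add_mul]; omega] at h5
            exact not_inn_of (by omega) h5
        rw [hbx, hτ, Sym2.eq_swap]
      · apply hmm
        have h3 := h.low (m * p.P + p.sg) (by omega)
        have h4 : p.le true xs (m * p.P + p.sg) =
            s(ln true (m * p.P + p.sg) false, ln true (m * p.P + p.sg + 1) (!!xs m)) := by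
          unfold Par.le Par.lp
          rw [if_neg (not_inn_s m), if_pos hin, Bool.not_not]
          have : (m * p.P + p.sg + 1) / p.P = m := by
            rw [show m * p.P + p.sg + 1 = m * p.P + (p.sg + 1) by omega]
            exact p.div_of (by omega)
          rw [this]
        rw [← h4]; exact h3
      · apply hmm
        have h3 := h.low (m * p.P + p.sg - 1) (by omega)
        have h4 : p.le true xs (m * p.P + p.sg - 1) =
            s(ln true (m * p.P + p.sg - 1) false, ln true (m * p.P + p.sg) false) := by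
          unfold Par.le Par.lp
          rw [show m * p.P + p.sg - 1 + 1 = m * p.P + p.sg by omega, if_neg (not_inn_s m), if_neg]
          rw [show m * p.P + p.sg - 1 = m * p.P + (p.sg - 1) by omega]
          exact not_inn_of (by omega)
        rw [← h4]; exact h3

end Pool.Agent.H49.TT
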