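import Pool.Agent.H49.TT.Lane

/-!
# The false case: the main line
-/

namespace Pool.Agent.H49.TT

open Pool.Agent.H33.TT V Cor

variable {p : Par}

lemma lp0 {l : Bool} {i : ℕ} : p.lp l (fun _ => false) i = ln l i false := by
  unfold Par.lp
  split_ifs <;> rfl

lemma W_of {v v' : V} (h : wst v) : W s(v, v') := ⟨v, Sym2.mem_mk_left _ _, h⟩
lemma W_of' {v v' : V} (h : wst v') : W s(v, v') := ⟨v', Sym2.mem_mk_right _ _, h⟩

lemma W_kap {d : Bool} {j : ℕ} (h1 : 1 ≤ j) (h2 : j < p.ka) : W (p.ce kap d j) := by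
  unfold Par.ce
  rw [p.cp_mid (c := kap) h1 h2]
  exact W_of (by simp [wst])

lemma W_lam {d : Bool} {j : ℕ} (h1 : 1 ≤ j) (h2 : j < p.la) : W (p.ce lam d j) := by
  unfold Par.ce
  rw [p.cp_mid (c := lam) h1 h2]
  exact W_of (by simp [wst])

/-- The first player is on its first trunk, the second player still in `kap`. -/
theorem trunk_run (hT : p.Typed) (hF : ¬ p.truth) {δ : ℕ} (hδ : Lag p δ) :
    ∀ (n j : ℕ) (U : Set (Sym2 V)), j + n = δ →
    (∀ i, p.ka - n ≤ i → i < p.ka → p.ce kap true i ∉ U) →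
    (∀ i, i < j → p.le true (fun _ => false) i ∈ U) →
    s(ln true 0 false, I lam (p.la - 1)) ∈ U →
    Up p j 0 (fun _ => false) (fun _ => false) U →
    MW p.Adj U (p.cp kap true (p.ka - n)) (ln true j false) := by
  have hka := p.hka
  have hkl : p.len kap = p.ka := rfl
  have hll : p.len lam = p.la := rfl
  have hla := p.la_pos
  have hsg := p.hsg
  have hP := p.hP'
  have hLen := p.hLen
  have hδ2 : 5 ≤ δ ∧ δ + 3 ≤ p.sg ∧ δ ≤ 2 * p.M + 6 := by unfold Lag at hδ; omega
  intro n
  induction n with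
  | zero =>
    intro j U hj hk hlow hl hup
    have hjd : j = δ := by omega
    subst hjd
    rw [Nat.sub_zero, ← hkl, Par.cp_len]
    have e1 : p.fin kap (!true) = p.lp false (fun _ => false) 0 := by rw [lp0]; rfl
    have e2 : ln true j false = p.lp true (fun _ => false) (0 + j) := by rw [lp0, Nat.zero_add]
    rw [e1, e2]
    refine on_lane hT hδ (p.Len - j) 0 _ _ U (by omega) ⟨?_, ?_, ?_⟩
    · intro i hi; exact hlow i (by omega)
    · rw [Nat.zero_add]; exact hup
    · left
      have h1 : DD p 0 = 0 := by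
        rw [DD_not (by simp)]; simp
      have h2 : DD p (0 + j) = 0 := by
        rw [Nat.zero_add, DD_not (by rw [Nat.mod_eq_of_lt (by omega)]; omega),
          Nat.div_eq_of_lt (by omega)]
      refine ⟨by rw [h1, h2], ?_⟩
      rw [h1, Nat.sub_zero]
      exact hF
  | succ n ih =>
    intro j U hj hk hlow hl hup
    have e1 : p.ka - (n + 1) + 1 = p.ka - n := by omega
    have hadj := p.cp_adj (c := kap) trivial true (k := p.ka - (n + 1)) (by omega)
    have hfr : s(p.cp kap true (p.ka - (n + 1)), p.cp kap true (p.ka - (n + 1) + 1)) ∉ U :=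
      hk (p.ka - (n + 1)) le_rfl (by omega)
    refine MW.intro _ hadj hfr ?_
    intro b' hb hu
    have hu' : s(ln true j false, b') ∉ U := fun h => hu (Or.inr h)
    have hforced : b' = ln true (j + 1) false := by
      rcases p.nb_ln hb with ⟨τ, rfl, h3, h4, h5, h6⟩ | ⟨τ, i', h7, rfl, h3, h4, h5, h6⟩ |
        ⟨h, _, _, h7⟩ | ⟨_, _, h, _⟩ | ⟨h, _⟩ | ⟨_, _, h, _⟩ | ⟨c, r, hc, hr, _, _, h⟩
      · rcases h5 with h5 | h5
        · rw [h5]
        · exfalso
          unfold Par.inn at h5
          rw [Nat.mod_eq_of_lt (by omega)] at h5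
          omega
      · exfalso
        have hτ : τ = false := by
          rcases h5 with h5 | h5
          · exact h5
          · exfalso
            unfold Par.inn at h5
            rw [Nat.mod_eq_of_lt (by omega)] at h5
            omega
        apply hu'
        have := hlow i' (by omega)
        unfold Par.le at this
        rw [lp0, lp0] at this
        rw [hτ, h7, Sym2.eq_swap]
        exact this
      · exfalso
        subst h
        rw [h7] at hu'
        exact hu' hl
      · simp at h
      · omega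
      · simp at h
      · exfalso
        have hai : p.sg + 1 ≤ p.ai c r := by unfold Par.ai; omega
        rcases h with ⟨h, _⟩ | ⟨h, _⟩ <;> omega
    subst hforced
    have hnew : s(ln true j false, ln true (j + 1) false) = p.le true (fun _ => false) j := by
      unfold Par.le; rw [lp0, lp0]
    rw [e1, hnew]
    refine ih (j + 1) _ (by omega) ?_ ?_ (Or.inr (Or.inr hl)) ?_
    · intro i hi hi2 hmem
      rcases hmem with h | h | h
      · exact le_ce (c := kap) (by omega) h.symm
      · have h' : p.ce kap true i = p.ce kap true (p.ka - (n + 1)) := by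
          rw [h, Par.ce, e1]
        have := p.ce_inj (c := kap) (by omega) (by omega) h'
        omega
      · exact hk i (by omega) hi2 h
    · intro i hi
      rcases Nat.lt_or_ge i j with h | h
      · exact Or.inr (Or.inr (hlow i h))
      · have : i = j := by omega
        rw [this]; exact Or.inl rfl
    · intro e he
      rcases he with he | he | he
      · exact Or.inr (Or.inl ⟨j, by omega, he⟩)
      · left
        have h' : e = p.ce kap true (p.ka - (n + 1)) := by rw [he, Par.ce, e1]
        rw [h']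
        exact W_kap (by omega) (by omega)
      · rcases hup e he with h | ⟨i, hi, h⟩ | ⟨i, hi, h⟩
        · exact Or.inl h
        · exact Or.inr (Or.inl ⟨i, by omega, h⟩)
        · omega

/-- The first player has entered `lam`. -/
theorem lam_run (hT : p.Typed) (hF : ¬ p.truth) {i0 : ℕ} (hi0 : i0 = 2 ∨ i0 = 3)
    {U : Set (Sym2 V)} (hk : ∀ i, i0 ≤ i → i < p.ka → p.ce kap true i ∉ U)
    (hb : p.ce lam false (p.la - 1) ∈ U) (hW : ∀ e ∈ U, W e) :
    MW p.Adj U (p.cp kap true i0) (p.cp lam false (p.la - 1)) := by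
  have hka := p.hka
  have hkl : p.len kap = p.ka := rfl
  have hll : p.len lam = p.la := rfl
  have hla := p.la_pos
  refine trapped (c := kap) (c' := lam) trivial (by simp) true false (p.la - 2) i0 (p.la - 1) U
    (by omega) (by omega) (by omega) (fun j h1 h2 => hk j h1 (by omega)) hb ?_
  intro U' hU' h1 h2 h3
  have e1 : p.la - 1 - (p.la - 2) = 1 := by omega
  rw [e1] at h2 h3 ⊢
  have hkf : ∀ i, i0 + (p.la - 2) ≤ i → i < p.ka → p.ce kap true i ∉ U' := by
    intro i hi hi2 hmem
    rcases h3 _ hmem with h | ⟨j, _, hj, h⟩ | ⟨j, _, hj, h⟩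
    · exact hk i (by omega) hi2 h
    · have := p.ce_inj (c := kap) (by omega) (by omega) h
      omega
    · exact p.ce_ne (c := kap) (c' := lam) (by omega) (by omega) (by simp) h
  have hadj := p.cp_adj (c := kap) trivial true (k := i0 + (p.la - 2)) (by omega)
  refine tstep hadj (hkf _ le_rfl (by omega)) le_rfl (by omega) h2 ?_
  have e2 : p.cp lam false (1 - 1) = ln true 0 false := by
    rw [Nat.sub_self, Par.cp_zero]; rfl
  have e3 : p.ce lam false (1 - 1) = s(ln true 0 false, I lam (p.la - 1)) := by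
    unfold Par.ce
    rw [e2, show 1 - 1 + 1 = 1 from rfl, p.cp_mid (c := lam) le_rfl (by omega)]
    rfl
  obtain ⟨δ, hδ, hδ'⟩ : ∃ δ, Lag p δ ∧ i0 + (p.la - 2) + 1 = p.ka - δ ∧ δ < p.ka := by
    unfold Lag
    rcases hi0 with rfl | rfl
    · exact ⟨2 * p.M + 6, Or.inr rfl, by omega, by omega⟩
    · exact ⟨2 * p.M + 5, Or.inl rfl, by omega, by omega⟩
  rw [e2, e3]
  rw [show p.cp kap true (i0 + (p.la - 2) + 1) = p.cp kap true (p.ka - δ) by rw [hδ'.1]]
  refine trunk_run hT hF hδ δ 0 _ (by omega) ?_ (by omega) (Or.inl rfl) ?_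
  · intro i hi hi2 hmem
    rcases hmem with h | h | h
    · rw [← e3] at h
      exact p.ce_ne (c := kap) (c' := lam) (by omega) (by omega) (by simp) h
    · rw [← hδ'.1] at h
      have := p.ce_inj (c := kap) (d := true) (i := i) (j := i0 + (p.la - 2)) (by omega) (by omega) h
      omega
    · exact hkf i (by omega) hi2 h
  · intro e he
    left
    rcases he with h | h | h
    · rw [h]; exact W_of' (by simp [wst])
    · rw [h, ← hδ'.1]
      exact W_kap (p := p) (d := true) (j := i0 + (p.la - 2)) (by omega) (by omega)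
    · rcases h3 _ h with h | ⟨j, hj1, hj, h⟩ | ⟨j, hj1, hj, h⟩
      · exact hW e h
      · rw [h]; exact W_kap (by omega) (by omega)
      · rw [h]; exact W_lam hj1 (by omega)

/-- Dead ends in the west; the number of remaining moves. -/
inductive DW (U : Set (Sym2 V)) : ℕ → V → Prop
  | x2 (h1 : s(V.x2, V.y1) ∈ U) (h2 : s(V.w, V.x2) ∈ U) (h3 : s(V.x2, I kap 1) ∈ U) : DW U 0 V.x2
  | y1 (h1 : s(V.x, V.y1) ∈ U) (h4 : s(V.y1, V.m1) ∈ U) (h5 : s(V.y1, V.u1) ∈ U)
      (h2 : s(V.w, V.x2) ∈ U) (h3 : s(V.x2, I kap 1) ∈ U) : DW U 1 V.y1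
  | m1 (h1 : s(V.x, V.y1) ∈ U) (h4 : s(V.m1, V.u1) ∈ U) (h5 : s(V.y1, V.u1) ∈ U)
      (h2 : s(V.w, V.x2) ∈ U) (h3 : s(V.x2, I kap 1) ∈ U) : DW U 2 V.m1

theorem dead_west : ∀ (r k : ℕ) (U : Set (Sym2 V)) (b : V), 1 ≤ k → k + r < p.ka →
    (∀ i, k ≤ i → i < p.ka → p.ce kap true i ∉ U) → DW U r b →
    MW p.Adj U (p.cp kap true k) b := by
  have hkl : p.len kap = p.ka := rfl
  intro r
  induction r with
  | zero =>
    intro k U b h1 h2 hk h
    refine MW.intro _ (p.cp_adj (c := kap) trivial true (k := k) (by omega)) (hk k le_rfl (by omega))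
      ?_
    intro b' hb hu
    exfalso
    have hu' : s(b, b') ∉ U := fun h => hu (Or.inr h)
    cases h with
    | x2 g1 g2 g3 =>
      rcases p.nb_x2 hb with rfl | rfl | rfl
      · exact hu' g1
      · rw [Sym2.eq_swap] at hu'; exact hu' g2
      · exact hu' g3
  | succ r ih =>
    intro k U b h1 h2 hk h
    refine MW.intro _ (p.cp_adj (c := kap) trivial true (k := k) (by omega)) (hk k le_rfl (by omega))
      ?_
    intro b' hb hu
    have hu' : s(b, b') ∉ U := fun h => hu (Or.inr h)
    have hfr : ¬ inC kap b → ¬ inC kap b' → ∀ i, k + 1 ≤ i → i < p.ka →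
        p.ce kap true i ∉ insert s(b, b') (insert s(p.cp kap true k, p.cp kap true (k + 1)) U) := by
      intro hb1 hb2 i hi hi2 hmem
      rcases hmem with h | h | h
      · exact p.ne_ce (c := kap) (by omega) hb1 hb2 h.symm
      · have := p.ce_inj (c := kap) (d := true) (i := i) (j := k) (by omega) (by omega) h
        omega
      · exact hk i (by omega) hi2 h
    have hmm : ∀ {e}, e ∈ U →
        e ∈ insert s(b, b') (insert s(p.cp kap true k, p.cp kap true (k + 1)) U) :=
      fun h => Or.inr (Or.inr h)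
    cases h with
    | y1 g1 g4 g5 g2 g3 =>
      rcases p.nb_y1 hb with rfl | rfl | rfl | rfl
      · rw [Sym2.eq_swap] at hu'; exact absurd g1 hu'
      · exact ih (k + 1) _ _ (by omega) (by omega) (hfr (by simp [inC]) (by simp [inC]))
          (.x2 (Or.inl (by rw [Sym2.eq_swap])) (hmm g2) (hmm g3))
      · exact absurd g4 hu'
      · exact absurd g5 hu'
    | m1 g1 g4 g5 g2 g3 =>
      rcases p.nb_m1 hb with rfl | rfl
      · exact ih (k + 1) _ _ (by omega) (by omega) (hfr (by simp [inC]) (by simp [inC]))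
          (.y1 (hmm g1) (Or.inl (by rw [Sym2.eq_swap])) (hmm g5) (hmm g2) (hmm g3))
      · exact absurd g4 hu'

/-- **The main line, false formula.** -/
theorem n2_core (p : Par) (hT : p.Typed) (hF : ¬ p.truth) (b1 : V) (hb1 : p.Adj y1 b1)
    (hu1 : s(y1, b1) ∉ ({s(x2, I kap 1), s(x, y1), s(w, x2), s(z, x)} : Set (Sym2 V))) :
    MW p.Adj (insert s(y1, b1) {s(x2, I kap 1), s(x, y1), s(w, x2), s(z, x)}) (I kap 1) b1 := by
  have hka := p.hka
  have hkl : p.len kap = p.ka := rfl
  have hll : p.len lam = p.la := rfl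
  have hla := p.la_pos
  have e1 : I kap 1 = p.cp kap true 1 := by
    rw [p.cp_mid (c := kap) le_rfl (by omega)]; simp
  have e0 : s(x2, I kap 1) = p.ce kap true 0 := by
    unfold Par.ce
    rw [Par.cp_zero, show 0 + 1 = 1 from rfl, ← e1]; rfl
  -- edges of `kap` ahead are free
  have hk0 : ∀ (S : Set (Sym2 V)), (∀ e ∈ S, ∃ v v', e = s(v, v') ∧ ¬ inC kap v ∧ ¬ inC kap v') →
      ∀ i, 1 ≤ i → i < p.ka → p.ce kap true i ∉ S := by
    intro S hS i hi hi2 hmem
    obtain ⟨v, v', h, h1, h2⟩ := hS _ hmem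
    exact p.ne_ce (c := kap) (by omega) h1 h2 h.symm
  have hk1 : ∀ i, 1 ≤ i → i < p.ka →
      p.ce kap true i ∉
        (insert s(y1, b1) {s(x2, I kap 1), s(x, y1), s(w, x2), s(z, x)} : Set (Sym2 V)) := by
    intro i hi hi2 hmem
    have hb1k : ¬ inC kap b1 := by
      rcases p.nb_y1 hb1 with rfl | rfl | rfl | rfl <;> simp [inC]
    have nm : ∀ v v', ¬ inC kap v → ¬ inC kap v' → p.ce kap true i ≠ s(v, v') := fun v v' h h' h2 =>
      p.ne_ce (c := kap) (by omega) h h' h2.symm
    rcases hmem with h | h | h | h | h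
    · exact nm _ _ (by simp [inC]) hb1k h
    · rw [e0] at h
      have := p.ce_inj (c := kap) (d := true) (i := i) (j := 0) (by omega) (by omega) h
      omega
    · exact nm _ _ (by simp [inC]) (by simp [inC]) h
    · exact nm _ _ (by simp [inC]) (by simp [inC]) h
    · exact nm _ _ (by simp [inC]) (by simp [inC]) h
  -- a move in `kap`
  have hk2 : ∀ (k : ℕ) (S : Set (Sym2 V)) (v v' : V), ¬ inC kap v → ¬ inC kap v' →
      (∀ i, k ≤ i → i < p.ka → p.ce kap true i ∉ S) → ∀ i, k + 1 ≤ i → i < p.ka →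
      p.ce kap true i ∉ insert s(v, v') (insert s(p.cp kap true k, p.cp kap true (k + 1)) S) := by
    intro k S v v' hv hv' hS i hi hi2 hmem
    rcases hmem with h | h | h
    · exact p.ne_ce (c := kap) (by omega) hv hv' h.symm
    · have := p.ce_inj (c := kap) (d := true) (i := i) (j := k) (by omega) (by omega) h
      omega
    · exact hS i (by omega) hi2 h
  have el : s(u1, I lam 1) = p.ce lam false (p.la - 1) := by
    have : p.ce lam false (p.la - 1) = p.ce lam true 0 := by
      rw [show (false : Bool) = !true from rfl, p.ce_rev (by omega)]; congr 1; omega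
    rw [this]
    unfold Par.ce
    rw [Par.cp_zero, show 0 + 1 = 1 from rfl, p.cp_mid (c := lam) le_rfl (by omega)]
    rfl
  have el2 : I lam 1 = p.cp lam false (p.la - 1) := by
    rw [p.cp_mid (c := lam) (by omega) (by omega)]
    simp only [Bool.false_eq_true, if_false, hll]
    congr 1; omega
  have hWk : ∀ k, 1 ≤ k → k < p.ka → W s(p.cp kap true k, p.cp kap true (k + 1)) :=
    fun k h1 h2 => W_kap (p := p) (d := true) h1 h2
  have hW0 : ∀ e ∈ ({s(x2, I kap 1), s(x, y1), s(w, x2), s(z, x)} : Set (Sym2 V)), W e := by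
    rintro e (h | h | h | h) <;> rw [h] <;> exact W_of (by simp [wst])
  rcases p.nb_y1 hb1 with rfl | rfl | rfl | rfl
  · exact absurd (Or.inr (Or.inl (by rw [Sym2.eq_swap]))) hu1
  · -- `x2`: stuck
    rw [e1]
    rw [← e1]
    have h := dead_west (p := p) 0 1 _ x2 le_rfl (by omega) hk1
      (.x2 (Or.inl (by rw [Sym2.eq_swap])) (by simp) (by simp))
    rw [← e1] at h
    exact h
  · -- `m1`
    have key : MW p.Adj (insert s(y1, m1) {s(x2, I kap 1), s(x, y1), s(w, x2), s(z, x)})
        (p.cp kap true 1) m1 := by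
      refine MW.intro _ (p.cp_adj (c := kap) trivial true (k := 1) (by omega))
        (hk1 1 le_rfl (by omega)) ?_
      intro b' hb hu
      rcases p.nb_m1 hb with rfl | rfl
      · exact absurd (Or.inr (Or.inl (by rw [Sym2.eq_swap]))) hu
      have hk3 := hk2 1 _ m1 u1 (by simp [inC]) (by simp [inC]) hk1
      refine MW.intro _ (p.cp_adj (c := kap) trivial true (k := 1 + 1) (by omega))
        (hk3 2 (by omega) (by omega)) ?_
      intro b'' hb' hu2
      rcases p.nb_u1 hb' with rfl | rfl | rfl
      · exact dead_west 1 (1 + 1 + 1) _ y1 (by omega) (by omega)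
          (hk2 (1 + 1) _ _ _ (by simp [inC]) (by simp [inC]) hk3)
          (.y1 (by simp) (by simp) (Or.inl (by rw [Sym2.eq_swap])) (by simp) (by simp))
      · exact absurd (Or.inr (Or.inl (by rw [Sym2.eq_swap]))) hu2
      · have hk4 := hk2 (1 + 1) _ u1 (I lam 1) (by simp [inC]) (by simp [inC]) hk3
        rw [el] at hk4 ⊢
        rw [el2]
        refine lam_run hT hF (Or.inr rfl) hk4 (Or.inl rfl) ?_
        rintro e (h | h | h | h | h | h)
        · rw [h, ← el]; exact W_of (by simp [wst])
        · rw [h]; exact hWk _ (by omega) (by omega)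
        · rw [h]; exact W_of (by simp [wst])
        · rw [h]; exact hWk _ (by omega) (by omega)
        · rw [h]; exact W_of (by simp [wst])
        · exact hW0 e h
    rw [← e1] at key
    exact key
  · -- `u1`
    have key : MW p.Adj (insert s(y1, u1) {s(x2, I kap 1), s(x, y1), s(w, x2), s(z, x)})
        (p.cp kap true 1) u1 := by
      refine MW.intro _ (p.cp_adj (c := kap) trivial true (k := 1) (by omega))
        (hk1 1 le_rfl (by omega)) ?_
      intro b' hb hu
      rcases p.nb_u1 hb with rfl | rfl | rfl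
      · exact absurd (Or.inr (Or.inl (by rw [Sym2.eq_swap]))) hu
      · exact dead_west 2 (1 + 1) _ m1 (by omega) (by omega)
          (hk2 1 _ _ _ (by simp [inC]) (by simp [inC]) hk1)
          (.m1 (by simp) (Or.inl (by rw [Sym2.eq_swap])) (by simp) (by simp) (by simp))
      · have hk4 := hk2 1 _ u1 (I lam 1) (by simp [inC]) (by simp [inC]) hk1
        rw [el] at hk4 ⊢
        rw [el2]
        refine lam_run hT hF (Or.inl rfl) hk4 (Or.inl rfl) ?_
        rintro e (h | h | h | h)
        · rw [h, ← el]; exact W_of (by simp [wst])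
        · rw [h]; exact hWk _ (by omega) (by omega)
        · rw [h]; exact W_of (by simp [wst])
        · exact hW0 e h
    rw [← e1] at key
    exact key

end Pool.Agent.H49.TT
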