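import Pool.Agent.H49.TT.Fin

/-!
# The false case: the first player has left its lane (or is in `J`)
-/

namespace Pool.Agent.H49.TT

open Pool.Agent.H33.TT V Cor

variable {p : Par}

/-- Entering a clause corridor from a lane vertex. -/
lemma K_entry {l : Bool} {i : ℕ} {s : Bool} {b' : V}
    (h : ∃ c r, c < p.M ∧ r < 3 ∧ l = p.lane c r ∧ s = p.sd c r ∧
      ((i = p.ai c r ∧ b' = I (K c r) (p.lK - 1)) ∨
       (i = p.ai c r + 1 ∧ b' = I (K c (r + 1)) 1))) :
    ∃ c r d, b' = p.cp (K c r) d (p.lK - 1) ∧ s(ln l i s, b') = p.ce (K c r) d (p.lK - 1) := by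
  obtain ⟨c, r, hc, hr, hl, hs, h⟩ := h
  have hKge := p.len_ge (K c r)
  have hlK : ∀ c r, p.len (K c r) = p.lK := fun _ _ => rfl
  rw [hlK] at hKge
  rcases h with ⟨hi, rfl⟩ | ⟨hi, rfl⟩
  · have e1 : I (K c r) (p.lK - 1) = p.cp (K c r) true (p.lK - 1) := by
      rw [p.cp_mid (c := K c r) (by omega) (by rw [hlK]; omega)]; simp
    have e2 : p.cp (K c r) true (p.lK - 1 + 1) = ln l i s := by
      rw [show p.lK - 1 + 1 = p.len (K c r) by rw [hlK]; omega, Par.cp_len]
      simp [Par.fin, Par.dst, hr, ← hl, ← hs, hi]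
    exact ⟨c, r, true, e1, by rw [Par.ce, e2, ← e1, Sym2.eq_swap]⟩
  · have e1 : I (K c (r + 1)) 1 = p.cp (K c (r + 1)) false (p.lK - 1) := by
      rw [p.cp_mid (c := K c (r + 1)) (by omega) (by rw [hlK]; omega)]
      simp only [Bool.false_eq_true, if_false, hlK]
      congr 1; omega
    have e2 : p.cp (K c (r + 1)) false (p.lK - 1 + 1) = ln l i s := by
      rw [show p.lK - 1 + 1 = p.len (K c (r + 1)) by rw [hlK]; omega, Par.cp_len]
      simp [Par.fin, Par.src, ← hl, ← hs, hi]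
    exact ⟨c, r + 1, false, e1, by rw [Par.ce, e2, ← e1, Sym2.eq_swap]⟩

/-- Modes of the first player which need no more decisions. `R` is the number of steps of the
second player to `Q`. -/
inductive OM (p : Par) (R : ℕ) (U : Set (Sym2 V)) : V → Prop
  | inK (c r : ℕ) (d : Bool) (k : ℕ) (h2 : k < p.lK) (hb : p.ce (K c r) d k ∈ U)
      (hR : R + p.lJ + 5 ≤ k) (hJG : p.JG U) : OM p R U (p.cp (K c r) d k)
  | inJ (k : ℕ) (h2 : k < p.lJ) (hb : p.ce J false k ∈ U)
      (hR : R + 4 ≤ k) (hG : p.cfree G U) : OM p R U (p.cp J false k)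
  | back (n j : ℕ) (σ : Bool) (hn : n < p.N) (h1 : 1 ≤ j) (h2 : j ≤ 2 * p.M)
      (hf : ∀ τ, (p.inn (n * p.P + p.sg + j + 1) → σ = τ) →
        p.ok (n * p.P + p.sg + j + 1) τ →
        s(ln true (n * p.P + p.sg + j) σ, ln true (n * p.P + p.sg + j + 1) τ) ∈ U)
      (hs : s(ln true (n * p.P + p.sg) false, ln true (n * p.P + p.sg + 1) (!σ)) ∈ U)
      (ht : s(ln true (n * p.P + p.sg - 1) false, ln true (n * p.P + p.sg) false) ∈ U)
      (hR : j + 1 ≤ R) (hJG : p.JG U) : OM p R U (ln true (n * p.P + p.sg + j) σ)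
  | bs (n : ℕ) (hn : n < p.N) (hs : ∀ τ, s(ln true (n * p.P + p.sg) false, ln true (n * p.P + p.sg + 1) τ) ∈ U)
      (ht : s(ln true (n * p.P + p.sg - 1) false, ln true (n * p.P + p.sg) false) ∈ U)
      (hR : 1 ≤ R) : OM p R U (ln true (n * p.P + p.sg) false)

/-- Vertices which are not on the road of the second player. -/
def nL (v : V) : Prop := (∀ i s, v ≠ ln false i s) ∧ v ≠ n1 ∧ v ≠ n2

lemma nL_ln (i : ℕ) (s : Bool) : nL (ln true i s) := ⟨by simp, by simp, by simp⟩
lemma nL_cp {c : Cor} {d : Bool} {k : ℕ} (h1 : 1 ≤ k) (h2 : k < p.len c) : nL (p.cp c d k) := by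
  rw [p.cp_mid h1 h2]
  exact ⟨by simp, by simp, by simp⟩

lemma inn_of {n j : ℕ} (h1 : 1 ≤ j) (h2 : j ≤ 2 * p.M) : p.inn (n * p.P + p.sg + j) := by
  unfold Par.inn
  rw [show n * p.P + p.sg + j = n * p.P + (p.sg + j) by omega, p.mod_of (by have := p.hP'; omega)]
  omega

lemma not_inn_of {n j : ℕ} (h1 : j ≤ p.sg) : ¬ p.inn (n * p.P + j) := by
  unfold Par.inn
  rw [p.mod_of (by have := p.hP'; omega)]
  omega

lemma not_inn_s (n : ℕ) : ¬ p.inn (n * p.P + p.sg) := not_inn_of le_rfl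

lemma OM.step {R : ℕ} {U : Set (Sym2 V)} {b b' : V} {i : ℕ} {s s' : Bool} (h : OM p (R + 1) U b)
    (hR : R + 1 ≤ p.Len) (hb : p.Adj b b')
    (hu : s(b, b') ∉ insert s(ln false i s, ln false (i + 1) s') U) :
    OM p R (insert s(b, b') (insert s(ln false i s, ln false (i + 1) s') U)) b' ∧ nL b := by
  have hlJ : p.len J = p.lJ := rfl
  have hlG : p.len G = p.lG := rfl
  have hlK : ∀ c r, p.len (K c r) = p.lK := fun _ _ => rfl
  have hKK := p.hK
  have hGG := p.hG
  have hJJ := p.hJ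
  have hu' : s(b, b') ∉ U := fun h => hu (Or.inr h)
  cases h with
  | inK c r d k h2 hk hR2 hJG =>
    have h1 : 1 ≤ k := by omega
    have := p.cp_fwd (c := K c r) h1 h2 (Or.inr hk) hb hu
    subst this
    refine ⟨.inK c r d (k - 1) (by omega) (p.ce_new h1) (by omega) ?_,
      nL_cp h1 (by rw [hlK]; omega)⟩
    exact (hJG.ins (nJG_ln _ _ _) (nJG_ln _ _ _)).ins (p.cp_nJG_K h1 h2)
      (p.cp_le_nJG_K (by omega))
  | inJ k h2 hk hR2 hG =>
    have h1 : 1 ≤ k := by omega
    have := p.cp_fwd (c := J) h1 h2 (Or.inr hk) hb hu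
    subst this
    refine ⟨.inJ (k - 1) (by omega) (p.ce_new h1) (by omega) ?_, nL_cp h1 (by omega)⟩
    exact Par.cG.ins (Par.cG.ins hG (nJG_ln _ _ _).2 (nJG_ln _ _ _).2) (p.cp_nG_J h2)
      (p.cp_nG_J (by omega))
  | back n j σ hn h1 h2 hf hs ht hR2 hJG =>
    refine ⟨?_, nL_ln _ _⟩
    have hin := inn_of (p := p) (n := n) h1 h2
    have hlt : n * p.P + p.sg + j + 1 ≤ p.Len ∨ p.Len < n * p.P + p.sg + j + 1 := by omega
    rcases p.nb_ln hb with ⟨τ, rfl, h3, h4, h5, h6⟩ | ⟨τ, i', h0, rfl, h3, h4, h5, h6⟩ | ⟨h, _⟩ |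
      ⟨h, _⟩ | ⟨h, _⟩ | ⟨_, _, h, _⟩ | h
    · exact absurd (hf τ (h6 hin) h5) hu'
    · have e : i' = n * p.P + p.sg + (j - 1) := by omega
      subst e
      have hmm : ∀ {e}, e ∈ U → e ∈ insert s(ln true (n * p.P + p.sg + j) σ,
          ln true (n * p.P + p.sg + (j - 1)) τ) (insert s(ln false i s, ln false (i + 1) s') U) :=
        fun h => Or.inr (Or.inr h)
      rcases Nat.lt_or_ge 1 j with hj | hj
      · have hin' := inn_of (p := p) (n := n) (j := j - 1) (by omega) (by omega)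
        have hτ : τ = σ := h6 hin' hin
        subst hτ
        refine .back n (j - 1) τ hn (by omega) (by omega) ?_ (hmm hs) (hmm ht) (by omega)
          ((hJG.ins (nJG_ln _ _ _) (nJG_ln _ _ _)).ins (nJG_ln _ _ _) (nJG_ln _ _ _))
        intro τ' h7 h8
        rw [show n * p.P + p.sg + (j - 1) + 1 = n * p.P + p.sg + j by omega] at h7 h8 ⊢
        rw [← h7 hin]
        left
        rw [Sym2.eq_swap]
      · have hj1 : j = 1 := by omega
        subst hj1
        have hτ : τ = false := by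
          rcases h5 with h | h
          · exact h
          · exact absurd h (by simpa using not_inn_s (p := p) n)
        subst hτ
        simp only [Nat.sub_self, Nat.add_zero] at hmm ⊢
        refine .bs n hn ?_ (hmm ht) (by omega)
        intro τ'
        by_cases h7 : τ' = σ
        · left
          rw [h7, Sym2.eq_swap]
        · have : τ' = !σ := by cases τ' <;> cases σ <;> simp_all
          rw [this]; exact hmm hs
    · have := p.hsg; omega
    · have := p.hsg; omega
    · exact absurd (h ▸ hin) p.not_inn_Len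
    · simp at h
    · obtain ⟨c, r, d, h3, h4⟩ := K_entry h
      have hjg := (hJG.ins (nJG_ln false i s) (nJG_ln false (i + 1) s')).ins
        (nJG_ln true (n * p.P + p.sg + j) σ) (w := b')
        (by rw [h3]; exact p.cp_nJG_K (by omega) (by omega))
      have hbb : p.ce (K c r) d (p.lK - 1) ∈ insert s(ln true (n * p.P + p.sg + j) σ, b')
          (insert s(ln false i s, ln false (i + 1) s') U) := Or.inl h4.symm
      rw [h3] at hjg hbb ⊢
      exact .inK c r d (p.lK - 1) (by omega) hbb (by omega) hjg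
  | bs n hn hs ht hR2 =>
    exfalso
    have hsg := p.hsg
    rcases p.nb_ln hb with ⟨τ, rfl, h3, h4, h5, h6⟩ | ⟨τ, i', h0, rfl, h3, h4, h5, h6⟩ | ⟨h, _⟩ |
      ⟨h, _⟩ | ⟨h, _, _, h7⟩ | ⟨_, _, h, _⟩ | ⟨c, r, hc, hr, _, _, h⟩
    · exact hu' (hs τ)
    · have e : i' = n * p.P + p.sg - 1 := by omega
      have hτ : τ = false := by
        rcases h5 with h | h
        · exact h
        · rw [e, show n * p.P + p.sg - 1 = n * p.P + (p.sg - 1) by omega] at h
          exact absurd h (not_inn_of (by omega))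
      rw [e, hτ, Sym2.eq_swap] at hu'
      exact hu' ht
    · omega
    · omega
    · have h8 : (n + 1) * p.P ≤ p.N * p.P := Nat.mul_le_mul_right _ hn
      have h9 := p.P_pos
      have h10 := p.hLen
      have h11 : (n + 1) * p.P = n * p.P + p.P := by ring
      omega
    · simp at h
    · have h8 := p.inn_ai (r := r) hc
      have h9 := p.inn_ai1 (r := r) hc
      rcases h with ⟨h, _⟩ | ⟨h, _⟩
      · rw [← h] at h8; exact not_inn_s n h8
      · rw [← h] at h9; exact not_inn_s n h9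

lemma Fr_road {i : ℕ} {s s' : Bool} {U : Set (Sym2 V)} {b b' : V}
    (hFr : Fr (lnS false i) U) (hn : nL b) :
    Fr (lnS false (i + 1)) (insert s(b, b') (insert s(ln false i s, ln false (i + 1) s') U)) := by
  refine ((hFr.mono ?_).insl ?_).insl ?_
  · rintro v ⟨j, s', h1, h2⟩; exact ⟨j, s', by omega, h2⟩
  · rintro ⟨j, s', h1, h2⟩
    have := (V.ln.inj h2).2.1
    omega
  · rintro ⟨j, s', _, h2⟩
    exact hn.1 _ _ h2

lemma Qn_road {i : ℕ} {s s' : Bool} {U : Set (Sym2 V)} {b b' : V} (hn : nL b)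
    (hq : s(ln false p.Len false, n1) ∉ U) :
    s(ln false p.Len false, n1) ∉
      insert s(b, b') (insert s(ln false i s, ln false (i + 1) s') U) := by
  rintro (h | h | h)
  · rcases Sym2.eq_iff.1 h with ⟨h, _⟩ | ⟨_, h⟩
    · exact hn.1 _ _ h.symm
    · exact hn.2.1 h.symm
  · rcases Sym2.eq_iff.1 h with ⟨_, h⟩ | ⟨_, h⟩ <;> simp at h
  · exact hq h

lemma nn_road {i : ℕ} {s s' : Bool} {U : Set (Sym2 V)} {b b' : V} (hn : nL b)
    (hq : s(n1, n2) ∉ U) :
    s(n1, n2) ∉ insert s(b, b') (insert s(ln false i s, ln false (i + 1) s') U) := by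
  rintro (h | h | h)
  · rcases Sym2.eq_iff.1 h with ⟨h, _⟩ | ⟨_, h⟩
    · exact hn.2.1 h.symm
    · exact hn.2.2 h.symm
  · rcases Sym2.eq_iff.1 h with ⟨h, _⟩ | ⟨h, _⟩ <;> simp at h
  · exact hq h

/-- **The second player runs to `Q` and wins, if the first player has left its lane.** -/
theorem off_lane : ∀ (n i : ℕ) (s : Bool) (U : Set (Sym2 V)) (b : V), i + n = p.Len →
    p.ok i s → Fr (lnS false i) U → s(ln false p.Len false, n1) ∉ U → s(n1, n2) ∉ U →
    OM p n U b → MW p.Adj U (ln false i s) b := by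
  intro n
  induction n with
  | zero =>
    intro i s U b hin hs hFr hq hnn hm
    have hi : i = p.Len := by omega
    subst hi
    have hs' : s = false := by
      rcases hs with h | h
      · exact h
      · exact absurd h p.not_inn_Len
    subst hs'
    cases hm with
    | inK c r d k h2 hk hR2 hJG => exact cut_Q hJG hq hnn h2 (by omega) hk
    | inJ k h2 hk hR2 hG => exact fin_J hG hq hnn h2 (by omega) hk
    | back n j σ hn h1 h2 hf hs ht hR2 hJG => omega
    | bs n hn hs ht hR2 => omega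
  | succ n ih =>
    intro i s U b hin hs hFr hq hnn hm
    obtain ⟨hadj, hok⟩ := p.nx_adj (l := false) (i := i) (by omega) hs
    refine MW.intro _ hadj (hFr _ _ ⟨i, s, le_rfl, rfl⟩ ⟨i + 1, _, by omega, rfl⟩) ?_
    intro b' hb hu
    obtain ⟨hm', hn⟩ := hm.step (by omega) hb hu
    exact ih (i + 1) _ _ b' (by omega) hok (Fr_road hFr hn) (Qn_road hn hq) (nn_road hn hnn) hm'

end Pool.Agent.H49.TT
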