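import Pool.Agent.H49.TT.Digits

/-!
# The false case: both players in their lanes
-/

namespace Pool.Agent.H49.TT

open Pool.Agent.H33.TT V Cor

variable {p : Par}

/-- West vertices. -/
def wst (v : V) : Prop := v = z ∨ v = x ∨ v = y1 ∨ v = x2 ∨ v = w ∨ v = m1 ∨ v = u1 ∨
  (∃ j, v = I kap j) ∨ ∃ j, v = I lam j

/-- Edges with a west end. -/
def W (e : Sym2 V) : Prop := ∃ v, v ∈ e ∧ wst v

lemma nW {v v' : V} (h : ¬ wst v) (h' : ¬ wst v') : ¬ W s(v, v') := by
  rintro ⟨u, hu, hw⟩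
  rcases Sym2.mem_iff.1 hu with rfl | rfl
  · exact h hw
  · exact h' hw

lemma nwln {l : Bool} {i : ℕ} {s : Bool} : ¬ wst (ln l i s) := by simp [wst]
lemma nwn1 : ¬ wst n1 := by simp [wst]
lemma nwn2 : ¬ wst n2 := by simp [wst]
lemma nwR : ¬ wst R := by simp [wst]

lemma nw_src {c : Cor} (h : c ≠ kap ∧ c ≠ lam) : ¬ wst (p.src c) := by
  rcases p.src_cases c with ⟨h1, _⟩ | ⟨h1, _⟩ | ⟨_, h1⟩ | ⟨_, h1⟩ | ⟨_, _, h1⟩ | ⟨_, _, _, h1⟩
  · exact absurd h1 h.1
  · exact absurd h1 h.2
  all_goals rw [h1]; exact nwln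

lemma nw_dst {c : Cor} (h : c ≠ kap ∧ c ≠ lam) : ¬ wst (p.dst c) := by
  rcases p.dst_cases c with ⟨h1, _⟩ | ⟨h1, _⟩ | ⟨_, h1⟩ | ⟨_, h1⟩ | ⟨_, _, _, _, h1⟩ |
    ⟨_, _, _, _, h1⟩
  · exact absurd h1 h.1
  · exact absurd h1 h.2
  · rw [h1]; exact nwn2
  · rw [h1]; exact nwn2
  · rw [h1]; exact nwln
  · rw [h1]; exact nwR

lemma nw_cp {c : Cor} (h : c ≠ kap ∧ c ≠ lam) {d : Bool} {j : ℕ} (hj : j ≤ p.len c) :
    ¬ wst (p.cp c d j) := by
  rcases Nat.eq_zero_or_pos j with rfl | h0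
  · rw [Par.cp_zero]
    cases d
    · exact nw_dst h
    · exact nw_src h
  · rcases Nat.lt_or_ge j (p.len c) with h1 | h1
    · rw [p.cp_mid h0 h1]
      unfold wst
      simp only [reduceCtorEq, V.I.injEq, false_or, not_or, not_exists, not_and]
      exact ⟨fun _ h2 => absurd h2 h.1, fun _ h2 => absurd h2 h.2⟩
    · have : j = p.len c := by omega
      rw [this, Par.cp_len]
      cases d
      · exact nw_src h
      · exact nw_dst h

lemma nW_ce {c : Cor} (h : c ≠ kap ∧ c ≠ lam) {d : Bool} {j : ℕ} (hj : j < p.len c) :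
    ¬ W (p.ce c d j) := nW (nw_cp h (by omega)) (nw_cp h (by omega))

lemma le_eq {l : Bool} {xs xs' : ℕ → Bool} {i j : ℕ} (h : p.le l xs i = p.le l xs' j) :
    i = j := by
  rcases Sym2.eq_iff.1 h with ⟨h1, _⟩ | ⟨h1, h2⟩
  · exact (V.ln.inj h1).2.1
  · have := (V.ln.inj h1).2.1
    have := (V.ln.inj h2).2.1
    omega

lemma le_lane {xs xs' : ℕ → Bool} {i j : ℕ} : p.le true xs i ≠ p.le false xs' j := by
  intro h
  rcases Sym2.eq_iff.1 h with ⟨h1, _⟩ | ⟨h1, _⟩
  · have := (V.ln.inj h1).1; simp at this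
  · have := (V.ln.inj h1).1; simp at this

lemma nlp {c : Cor} {l : Bool} {xs : ℕ → Bool} {i : ℕ} : ¬ inC c (p.lp l xs i) := nln

lemma le_ce {c : Cor} {l d : Bool} {xs : ℕ → Bool} {i j : ℕ} (hj : j < p.len c) :
    p.le l xs i ≠ p.ce c d j := p.ne_ce hj nlp nlp

/-- The used edges, on track: at most the west, the paths in the lanes. -/
def Up (p : Par) (i1 i2 : ℕ) (xs ys : ℕ → Bool) (U : Set (Sym2 V)) : Prop :=
  ∀ e ∈ U, W e ∨ (∃ j, j < i1 ∧ e = p.le true xs j) ∨ (∃ j, j < i2 ∧ e = p.le false ys j)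

lemma Up.cfree {i1 i2 : ℕ} {xs ys : ℕ → Bool} {U : Set (Sym2 V)} (h : Up p i1 i2 xs ys U)
    {c : Cor} (hc : c ≠ kap ∧ c ≠ lam) : p.cfree c U := by
  intro k hk hmem
  rcases h _ hmem with h | ⟨j, _, h⟩ | ⟨j, _, h⟩
  · exact nW_ce hc hk h
  · exact le_ce hk h.symm
  · exact le_ce hk h.symm

lemma Up.JG {i1 i2 : ℕ} {xs ys : ℕ → Bool} {U : Set (Sym2 V)} (h : Up p i1 i2 xs ys U) :
    p.JG U := ⟨h.cfree (by simp), h.cfree (by simp)⟩

lemma Up.free {i1 i2 : ℕ} {xs ys : ℕ → Bool} {U : Set (Sym2 V)} (h : Up p i1 i2 xs ys U)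
    {v v' : V} (hv : ¬ wst v) (hv' : ¬ wst v') (hl : ∀ l i s, v' ≠ ln l i s) :
    s(v, v') ∉ U := by
  intro hmem
  rcases h _ hmem with h | ⟨j, _, h⟩ | ⟨j, _, h⟩
  · exact nW hv hv' h
  · rcases Sym2.eq_iff.1 h with ⟨_, h⟩ | ⟨_, h⟩
    · exact hl _ _ _ h
    · exact hl _ _ _ h
  · rcases Sym2.eq_iff.1 h with ⟨_, h⟩ | ⟨_, h⟩
    · exact hl _ _ _ h
    · exact hl _ _ _ h

lemma Up.Fr {i1 i2 : ℕ} {xs ys : ℕ → Bool} {U : Set (Sym2 V)} (h : Up p i1 i2 xs ys U) :
    Fr (lnS false i2) U := by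
  rintro v v' ⟨j, s, hj, rfl⟩ ⟨j', s', hj', rfl⟩ hmem
  rcases h _ hmem with h | ⟨k, _, h⟩ | ⟨k, hk, h⟩
  · exact nW nwln nwln h
  · rcases Sym2.eq_iff.1 h with ⟨h, _⟩ | ⟨h, _⟩
    · have := (V.ln.inj h).1; simp at this
    · have := (V.ln.inj h).1; simp at this
  · rcases Sym2.eq_iff.1 h with ⟨h, _⟩ | ⟨_, h⟩
    · have := (V.ln.inj h).2.1; omega
    · have := (V.ln.inj h).2.1; omega

/-- On track: the first player is at `i + δ`, the second player at `i` and to move. -/
structure OT (p : Par) (δ i : ℕ) (xs ys : ℕ → Bool) (U : Set (Sym2 V)) : Prop where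
  low : ∀ j, j < i + δ → p.le true xs j ∈ U
  up : Up p (i + δ) i xs ys U
  q : QI p (i + δ) i xs ys

/-- The end of the clause path case and the direct case: the first player is in `G`. -/
theorem fin_Q (hT : p.Typed) {δ : ℕ} (hδ : Lag p δ) {xs ys : ℕ → Bool} {U : Set (Sym2 V)}
    (hm : ¬ p.mat xs ys)
    (hup : ∀ e ∈ U, W e ∨ (∃ j, j < p.Len ∧ e = p.le true xs j) ∨
      (∃ j, j < p.Len ∧ e = p.le false ys j) ∨
      ∃ j, p.lG - δ ≤ j ∧ j < p.lG ∧ e = p.ce G false j)
    (hb : p.ce G false (p.lG - δ) ∈ U) :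
    MW p.Adj U (ln false p.Len false) (p.cp G false (p.lG - δ)) := by
  have hlG : p.len G = p.lG := rfl
  have hGG := p.hG
  have hG2 := p.hG2
  have hLen := p.hLen
  have hsg := p.hsg
  have hne : ∀ e, ¬ W e → (∀ j, e ≠ p.le true xs j) → (∀ j, e ≠ p.le false ys j) →
      (∀ j, p.lG - δ ≤ j → j < p.lG → e ≠ p.ce G false j) → e ∉ U := by
    intro e h1 h2 h3 h4 h5
    rcases hup e h5 with h | ⟨j, _, h⟩ | ⟨j, _, h⟩ | ⟨j, h6, h7, h⟩
    · exact h1 h
    · exact h2 j h
    · exact h3 j h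
    · exact h4 j h6 h7 h
  have hfr : ∀ v v', ¬ wst v → ¬ wst v' → (∀ l i s, v' ≠ ln l i s) → ¬ inC G v → ¬ inC G v' →
      s(v, v') ∉ U := by
    intro v v' h1 h2 h3 h4 h5
    refine hne _ (nW h1 h2) ?_ ?_ (fun j _ hj => p.ne_ce (by omega) h4 h5)
    · intro j h
      rcases Sym2.eq_iff.1 h with ⟨_, h⟩ | ⟨_, h⟩
      · exact h3 _ _ _ h
      · exact h3 _ _ _ h
    · intro j h
      rcases Sym2.eq_iff.1 h with ⟨_, h⟩ | ⟨_, h⟩
      · exact h3 _ _ _ h
      · exact h3 _ _ _ h
  have hq : s(ln false p.Len false, n1) ∉ U := hfr _ _ nwln nwn1 (by simp) nQ nn1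
  have hn : s(n1, n2) ∉ U := hfr _ _ nwn1 nwn2 (by simp) nn1 nn2
  have hgf : ∀ j, j < p.lG - δ → p.ce G false j ∉ U := by
    intro j hj
    refine hne _ (nW_ce (by simp) (by omega)) (fun j' h => le_ce (by omega) h.symm)
      (fun j' h => le_ce (by omega) h.symm) (fun j' h1 h2 h => ?_)
    have := p.ce_inj (c := G) (by omega) (by omega) h
    omega
  rcases hδ with hδ | hδ
  · -- direct
    refine tstep adj_Qn1 hq (by omega) (by omega) hb ?_
    refine fin_G1 (by omega) (by omega) (by omega) ?_ ?_ (Or.inl rfl)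
    · refine e_old (by omega) nn1 nn2 ?_ hn
      intro h
      rcases Sym2.eq_iff.1 h with ⟨h, _⟩ | ⟨_, h⟩ <;> simp at h
    · intro j hj
      exact cG_old (by omega) hj nQ nn1 (hgf j (by omega))
  · -- the clause path
    unfold Par.mat at hm
    push Not at hm
    obtain ⟨c, hc, hlit⟩ := hm
    have e0 : p.src (K c 0) = ln false p.Len false := rfl
    rw [← e0]
    refine fin_clause hT hc 3 0 (p.lG - δ) U rfl (by omega) (by omega) (by omega) ?_
    refine ⟨?_, ?_, hfr _ _ nwR nwn1 (by simp) nR nn1, hn, hgf, hb⟩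
    · intro r _ hr j hj
      exact hne _ (nW_ce (by simp) hj) (fun j' h => le_ce hj h.symm) (fun j' h => le_ce hj h.symm)
        (fun j' _ h1 h => p.ce_ne hj (by omega) (by simp) h)
    · intro r _ hr
      have key : ∀ (l : Bool) (zs : ℕ → Bool) (j : ℕ), (p.lane c r = l → zs (p.st c r) ≠ p.sd c r) →
          litE p c r ≠ p.le l zs j := by
        intro l zs j hz h
        have aux : ∀ {a : ℕ} {l' : Bool}, ln (p.lane c r) (p.ai c r) (p.sd c r) = p.lp l' zs a →
            l' = l → False := by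
          intro a l' h' hl'
          unfold Par.lp at h'
          obtain ⟨h3, h4, h5⟩ := V.ln.inj h'
          rw [← h4, if_pos (p.inn_ai hc), p.ai_div hc] at h5
          exact hz (h3.trans hl') h5.symm
        rcases Sym2.eq_iff.1 h with ⟨h1, _⟩ | ⟨h1, _⟩
        · exact aux h1 rfl
        · exact aux h1 rfl
      refine hne _ (nW nwln nwln) (fun j => key true xs j ?_) (fun j => key false ys j ?_)
        (fun j' _ h1 => p.ne_ce (by omega) nln nln)
      · intro hl
        have := hlit r hr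
        rw [hl] at this
        simpa using this
      · intro hl
        have := hlit r hr
        rw [hl] at this
        simpa using this

/-- The first player is at `h`. -/
theorem at_h (hT : p.Typed) {δ i : ℕ} (hδ : Lag p δ) {xs ys : ℕ → Bool} {U : Set (Sym2 V)}
    (hi : i + δ = p.Len) (h : OT p δ i xs ys U) :
    MW p.Adj U (p.lp false ys i) (p.lp true xs (i + δ)) := by
  have hlG : p.len G = p.lG := rfl
  have hlJ : p.len J = p.lJ := rfl
  have hGG := p.hG
  have hJJ := p.hJ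
  have hLen := p.hLen
  have hsg := p.hsg
  have hP := p.hP'
  have hδ2 : 5 ≤ δ ∧ δ + 3 ≤ p.sg := by unfold Lag at hδ; omega
  have hi2 : i = p.N * p.P + (p.sg - δ) := by omega
  -- the formula
  have hm : ¬ p.mat xs ys := by
    have h1 : DD p i = p.N := by rw [hi2]; exact DD_end (by omega)
    have h2 : DD p (i + δ) = p.N := by rw [hi, hLen]; exact DD_end le_rfl
    rcases h.q with ⟨_, h3⟩ | ⟨h3, _⟩
    · rw [h1, Nat.sub_self] at h3
      exact h3
    · omega
  have hnin : ∀ j, j ≤ δ → ¬ p.inn (i + j) := by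
    intro j hj
    rw [hi2, show p.N * p.P + (p.sg - δ) + j = p.N * p.P + (p.sg - δ + j) by omega]
    exact not_inn_of (by omega)
  have lpf : ∀ (l : Bool) (zs : ℕ → Bool) (j : ℕ), j ≤ δ → p.lp l zs (i + j) = ln l (i + j) false := by
    intro l zs j hj
    unfold Par.lp
    rw [if_neg (hnin j hj)]
  have hbh : p.lp true xs (i + δ) = ln true p.Len false := by rw [lpf _ _ _ le_rfl, hi]
  have hE : p.endE ∈ U := by
    have h1 := h.low (p.Len - 1) (by omega)
    have h2 : p.le true xs (p.Len - 1) = p.endE := by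
      unfold Par.le Par.endE
      rw [show p.Len - 1 + 1 = i + δ by omega, hbh, show p.Len - 1 = i + (δ - 1) by omega,
        lpf _ _ _ (by omega)]
    rw [← h2]; exact h1
  have hA : ∀ j, j < δ → s(p.lp false ys (i + j), p.lp false ys (i + j + 1)) ∉ U := by
    intro j hj hmem
    rcases h.up _ hmem with h1 | ⟨j', _, h1⟩ | ⟨j', h2, h1⟩
    · exact nW nwln nwln h1
    · exact le_lane h1.symm
    · have := le_eq (p := p) (l := false) (xs := ys) (xs' := ys) h1
      omega
  rw [hbh]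
  refine MW.intro (p.lp false ys (i + 1)) (p.lp_adj false ys (by omega)) (hA 0 (by omega)) ?_
  intro b' hb hu
  have hbn : nL (ln true p.Len false) := nL_ln _ _
  have hAe : s(p.lp false ys i, p.lp false ys (i + 1)) =
      s(ln false i false, ln false (i + 1) false) := by
    have h1 := lpf false ys 0 (by omega)
    rw [Nat.add_zero] at h1
    rw [h1, lpf false ys 1 (by omega)]
  have hq0 : s(ln false p.Len false, n1) ∉ U := h.up.free nwln nwn1 (by simp)
  have hn0 : s(n1, n2) ∉ U := h.up.free nwn1 nwn2 (by simp)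
  rcases p.nb_h hE hb (fun h => hu (Or.inr h)) with rfl | rfl
  · -- into `J`
    have e1 : I J 1 = p.cp J false (p.lJ - 1) := by
      rw [p.cp_mid (c := J) (by omega) (by omega)]
      simp only [Bool.false_eq_true, if_false, hlJ]
      congr 1; omega
    have e2 : s(ln true p.Len false, I J 1) = p.ce J false (p.lJ - 1) := by
      rw [← p.ceJ0, show (true : Bool) = !false from rfl, p.ce_rev (by omega)]
      congr 1
    have hcG : p.cfree G (insert s(ln true p.Len false, I J 1)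
        (insert s(ln false i false, ln false (i + 1) false) U)) :=
      Par.cG.ins (Par.cG.ins h.up.JG.2 nln nln) nln (by simp [inC])
    rw [hAe, lpf false ys 1 (by omega)]
    have hm1 : OM p (δ - 1) (insert s(ln true p.Len false, I J 1)
        (insert s(ln false i false, ln false (i + 1) false) U)) (I J 1) := by
      have hbb : p.ce J false (p.lJ - 1) ∈ insert s(ln true p.Len false, I J 1)
          (insert s(ln false i false, ln false (i + 1) false) U) := Or.inl e2.symm
      rw [e1] at hcG hbb ⊢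
      exact .inJ (p.lJ - 1) (by omega) hbb (by omega) hcG
    exact off_lane (δ - 1) (i + 1) false _ _ (by omega) (Or.inl rfl) (Fr_road h.up.Fr hbn)
      (Qn_road hbn hq0) (nn_road hbn hn0) hm1
  · -- into `G`
    have e1 : I G 1 = p.cp G false (p.lG - 1) := by
      rw [p.cp_mid (c := G) (by omega) (by omega)]
      simp only [Bool.false_eq_true, if_false, hlG]
      congr 1; omega
    have e2 : s(ln true p.Len false, I G 1) = p.ce G false (p.lG - 1) := by
      rw [← p.ceG0, show (true : Bool) = !false from rfl, p.ce_rev (by omega)]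
      congr 1
    rw [e2]
    rw [e1]
    refine ptrap (c' := G) false (δ - 1) (fun j => p.lp false ys (i + 1 + j)) (p.lG - 1) _
      (fun j hj => p.lp_adj false ys (by omega)) ?_ ?_ ?_ (by omega) (by omega) (Or.inl rfl) ?_
    · intro j hj hmem
      rcases hmem with hmem | hmem | hmem
      · exact le_ce (p := p) (c := G) (l := false) (xs := ys) (i := i + 1 + j) (by omega) hmem
      · have := le_eq (p := p) (l := false) (xs := ys) (xs' := ys) (i := i + 1 + j) (j := i) hmem
        omega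
      · have := hA (j + 1) (by omega)
        rw [show i + (j + 1) = i + 1 + j by omega] at this
        exact this hmem
    · intro j j' h1 h2 h3
      have := le_eq (p := p) (l := false) (xs := ys) (xs' := ys) (i := i + 1 + j) (j := i + 1 + j') h3
      omega
    · intro j j' h1 h2
      exact le_ce (p := p) (c := G) (l := false) (xs := ys) (i := i + 1 + j) (by omega)
    · intro U' hU' h1 h2 h3
      have e3 : p.lG - 1 - (δ - 1) = p.lG - δ := by omega
      have e4 : p.lp false ys (i + 1 + (δ - 1)) = ln false p.Len false := by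
        rw [show i + 1 + (δ - 1) = i + δ by omega, lpf _ _ _ le_rfl, hi]
      rw [e3] at h2 h3 ⊢
      show MW p.Adj U' (p.lp false ys (i + 1 + (δ - 1))) _
      rw [e4]
      refine fin_Q hT hδ hm ?_ h2
      intro e he
      rcases h3 e he with (h4 | h4 | h4) | ⟨j, hj, h4⟩ | ⟨j, hj, hj', h4⟩
      · exact Or.inr (Or.inr (Or.inr ⟨p.lG - 1, by omega, by omega, h4⟩))
      · exact Or.inr (Or.inr (Or.inl ⟨i, by omega, h4⟩))
      · rcases h.up e h4 with h5 | ⟨j, hj, h5⟩ | ⟨j, hj, h5⟩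
        · exact Or.inl h5
        · exact Or.inr (Or.inl ⟨j, by omega, h5⟩)
        · exact Or.inr (Or.inr (Or.inl ⟨j, by omega, h5⟩))
      · exact Or.inr (Or.inr (Or.inl ⟨i + 1 + j, by omega, h4⟩))
      · exact Or.inr (Or.inr (Or.inr ⟨j, hj, by omega, h4⟩))

end Pool.Agent.H49.TT
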