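import Pool.Agent.H33.TT.Start2
import Pool.Agent.H49.TT.N2

/-!
# The false case: the second player wins against every start
-/

namespace Pool.Agent.H49.TT

open Pool.Agent.H33.TT V Cor

variable {p : Par}

lemma SE_ne_y1 {f t : ℕ} {U : Set (Sym2 V)} {b : V} (h : p.SE f t U b) : b ≠ y1 := by
  cases h with
  | de _ hh => rcases hh with rfl | rfl | rfl <;> simp
  | de2 _ hh => rcases hh with rfl | rfl <;> simp
  | dx => simp
  | eiK c r d k hc h1 h2 => rw [p.cp_mid (c := K c r) h1 h2]; simp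
  | eikap k h1 h2 => rw [p.cp_mid (c := kap) h1 h2]; simp
  | eiJ k h1 h2 => rw [p.cp_mid (c := J) h1 h2]; simp
  | eiG k h1 h2 => rw [p.cp_mid (c := G) h1 h2]; simp
  | mn2 => simp
  | mzn _ hz => rcases hz with ⟨i, s, rfl, hi⟩ | rfl | rfl <;> simp
  | lt1 => simp
  | lt2 => simp
  | lt3 => simp
  | lt4 => simp
  | lt5 => simp
  | ink c r d k hc h1 h2 => rw [p.cp_mid (c := K c r) h1 h2]; simp
  | inj k h1 h2 => rw [p.cp_mid (c := J) h1 h2]; simp
  | ing k h1 h2 => rw [p.cp_mid (c := G) h1 h2]; simp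

/-- The first three edges: `u → u'`, `z → x`, `u' → u''`. -/
abbrev U3 (u u' u'' : V) : Set (Sym2 V) := insert s(u', u'') {s(z, x), s(u, u')}

lemma nTZ {v : V} (h : v = z ∨ v = x ∨ v = y1 ∨ v = x2 ∨ v = w ∨ v = m1 ∨ v = u1) : ¬ TZ v := by
  rcases h with rfl | rfl | rfl | rfl | rfl | rfl | rfl <;>
    rintro (h | h | h | ⟨_, _, _, h⟩ | h | h) <;> simp at h

lemma baseF_of {u u' u'' : V} (h1 : ¬ TZ u') (h2 : u' ≠ x) : p.BaseF (U3 u u' u'') := by
  have hy : u' ≠ y2 := fun h => h1 (Or.inl h)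
  refine ⟨by simp, ?_, ?_⟩
  · rintro (h | h | h)
    · rcases Sym2.eq_iff.1 h with ⟨h, _⟩ | ⟨_, h⟩
      · exact h2 h.symm
      · exact hy h.symm
    · rcases Sym2.eq_iff.1 h with ⟨h, _⟩ | ⟨_, h⟩ <;> simp at h
    · rcases Sym2.eq_iff.1 h with ⟨_, h⟩ | ⟨h, _⟩
      · exact hy h.symm
      · exact h2 h.symm
  · rintro v v' hv hv' (h | h | h)
    · rcases Sym2.eq_iff.1 h with ⟨rfl, _⟩ | ⟨_, rfl⟩
      · exact h1 hv
      · exact h1 hv'
    · rcases Sym2.eq_iff.1 h with ⟨rfl, _⟩ | ⟨_, rfl⟩
      · exact nTZ (by simp) hv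
      · exact nTZ (by simp) hv'
    · rcases Sym2.eq_iff.1 h with ⟨_, rfl⟩ | ⟨rfl, _⟩
      · exact h1 hv'
      · exact h1 hv

lemma baseS_of {u u' u'' : V} (h : nA u' ∧ u' ≠ u1 ∧ u' ≠ m1 ∧ u' ≠ y1) (h2 : u' ≠ x) :
    p.BaseS (U3 u u' u'') := by
  obtain ⟨n0, n1, n2, n3⟩ := h
  have key : ∀ v v', (v = x ∨ v = y1 ∨ v = u1 ∨ v = m1) → (v' = y1 ∨ v' = u1 ∨ v' = m1) →
      s(v, v') ∉ U3 u u' u'' := by
    intro v v' hv hv'
    have a1 : v ≠ u' := by
      rintro rfl
      rcases hv with h | h | h | h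
      · exact h2 h
      · exact n3 h
      · exact n1 h
      · exact n2 h
    have a2 : v' ≠ u' := by
      rintro rfl
      rcases hv' with h | h | h
      · exact n3 h
      · exact n1 h
      · exact n2 h
    rintro (h | h | h)
    · rcases Sym2.eq_iff.1 h with ⟨h, _⟩ | ⟨_, h⟩
      · exact a1 h
      · exact a2 h
    · rcases Sym2.eq_iff.1 h with ⟨h, h'⟩ | ⟨h, h'⟩
      · rcases hv' with rfl | rfl | rfl <;> simp at h'
      · rcases hv' with rfl | rfl | rfl <;> simp at h'
    · rcases Sym2.eq_iff.1 h with ⟨_, h⟩ | ⟨h, _⟩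
      · exact a2 h
      · exact a1 h
  refine ⟨by simp, key _ _ (by simp) (by simp), ?_, key _ _ (by simp) (by simp),
    key _ _ (by simp) (by simp), key _ _ (by simp) (by simp)⟩
  have hu' : ¬ p.TL 0 u' := p.nTL n0 n1
  have hz : ¬ p.TL 0 z := p.nTL ⟨by simp, by simp⟩ (by simp)
  rintro v v' hv hv' (h | h | h)
  · rcases Sym2.eq_iff.1 h with ⟨rfl, _⟩ | ⟨_, rfl⟩
    · exact hu' hv
    · exact hu' hv'
  · rcases Sym2.eq_iff.1 h with ⟨rfl, _⟩ | ⟨_, rfl⟩
    · exact hz hv
    · exact hz hv'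
  · rcases Sym2.eq_iff.1 h with ⟨_, rfl⟩ | ⟨rfl, _⟩
    · exact hu' hv'
    · exact hu' hv

lemma nj_name {v : V} (h : v = z ∨ v = x ∨ v = y1 ∨ v = y2 ∨ v = x2 ∨ v = w ∨ v = m1 ∨ v = u1 ∨
    v = m2 ∨ v = u2) : nJG v := by
  rcases h with rfl | rfl | rfl | rfl | rfl | rfl | rfl | rfl | rfl | rfl <;>
    exact ⟨by simp [inC], by simp [inC]⟩

/-- The modes after the reply `z → x` and one more move. -/
theorem general {u u' u'' : V} (hadj : p.Adj u u') (hx : u' ≠ x) (hb : p.Adj u' u'')
    (hu : s(u', u'') ∉ ({s(z, x), s(u, u')} : Set (Sym2 V)))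
    (hcls : (p.BaseS {s(u, u'), s(z, x)} ∧ p.MS 0 {s(u, u'), s(z, x)} u') ∨
      (p.BaseF {s(u, u'), s(z, x)} ∧ p.MF 0 {s(u, u'), s(z, x)} u') ∨ (u = w ∧ u' = x2)) :
    MW p.Adj (U3 u u' u'') x u'' := by
  have hka := p.len_ge kap
  have hka' : p.len kap = p.ka := rfl
  have hkk := p.hka
  have hLL := p.la_ge
  have hGG := p.hG
  have e : ({s(u, u'), s(z, x)} : Set (Sym2 V)) = {s(z, x), s(u, u')} := Set.pair_comm _ _
  rw [e] at hcls
  set U1 : Set (Sym2 V) := {s(z, x), s(u, u')} with hU1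
  have hzx : s(z, x) ∈ U1 := Or.inl rfl
  have hins : insert s(z, x) U1 = U1 := Set.insert_eq_of_mem hzx
  have hu1 : s(u', u'') ∉ insert s(z, x) U1 := by rw [hins]; exact hu
  have hk0 : ∀ (v : V), (∀ j, v ≠ I kap j) → ∀ k, v = p.cp kap false k → 1 ≤ k → k < p.ka →
      p.Len + 12 ≤ k + 1 := by
    intro v hv k hk h1 h2
    rw [p.cp_mid (c := kap) h1 h2] at hk; exact absurd hk (hv _)
  rcases hcls with ⟨_, hm⟩ | ⟨_, hm⟩ | ⟨rfl, rfl⟩
  · -- slow
    obtain ⟨n0, n1, n2, n3⟩ := hm.nb
    have hB : p.BaseS (U3 u u' u'') := baseS_of ⟨n0, n1, n2, n3⟩ hx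
    have slow := fun (hm' : p.MS 1 (U3 u u' u'') u'') => start_slow le_rfl hB hm'
    cases hm with
    | se _ f h hy =>
      by_cases hyx : u' = y2 ∧ u'' = x
      · obtain ⟨rfl, rfl⟩ := hyx
        apply slow
        refine .mx (Or.inl (by rw [Sym2.eq_swap])) ?_
        have hun : nJG u := by
          rcases p.nb_y2 hadj.symm with rfl | rfl | rfl <;> exact nj_name (by simp)
        have h0 : p.JG (∅ : Set (Sym2 V)) := ⟨fun _ _ h => h, fun _ _ h => h⟩
        have h1 := ((h0.ins hun (nj_name (v := y2) (by simp))).ins (nj_name (v := z) (by simp))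
          (nj_name (v := x) (by simp))).ins (nj_name (v := y2) (by simp)) (nj_name (v := x) (by simp))
        have h2 : U3 u y2 x = insert s(y2, x) (insert s(z, x) (insert s(u, y2) ∅)) := by
          simp [U3]
        rw [h2]; exact h1
      · have hst := h.step (a := z) (a' := x) (by omega) (fun h1 h2 => absurd ⟨h1, h2⟩ hyx)
          (nj_name (by simp)) (nj_name (by simp)) hb hu1
        rw [hins] at hst
        rcases hst with ⟨h1, h2, h3⟩ | hst
        · subst h1
          exact slow (.wk (p.ka - 1) (by omega) (by omega) h2 h3)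
        · exact slow (.se _ _ hst (SE_ne_y1 hst))
    | mx h hG => exact absurd rfl hx
    | my h h1 h2 h3 hG =>
      rcases p.nb_y2 hb with rfl | rfl | rfl
      · rw [Sym2.eq_swap] at hu; exact absurd h hu
      · exact slow (.se _ 1 (.lt2 (Or.inl rfl) (by omega)
          (hG.ins (nj_name (by simp)) (nj_name (by simp))) rfl) (by simp))
      · exact slow (.se _ 0 (.lt1 (Or.inl (Or.inl rfl)) (by omega)
          (hG.ins (nj_name (by simp)) (nj_name (by simp))) rfl) (by simp))
    | wk k h1 h2 hk hG =>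
      have := p.cp_fwd (c := kap) h1 (by omega) hk hb hu
      subst this
      have hG' := hG.ins (v := p.cp kap true k) (w := p.cp kap true (k - 1))
        (p.cp_nJG_kap h1 h2).2 (p.cp_le_nJG_kap (by omega)).2
      have hn := p.ce_new (c := kap) (d := true) (U := U1) (k := k) h1
      rcases Nat.lt_or_ge 1 k with h3 | h3
      · exact slow (.wk (k - 1) (by omega) (by omega) hn hG')
      · have : k = 1 := by omega
        subst this
        have e1 : p.cp kap true (1 - 1) = x2 := by simp [Par.cp, Par.src]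
        have e2 : p.cp kap true 1 = I kap 1 := p.cp_mid (c := kap) le_rfl (by omega)
        rw [e1] at hG' ⊢
        rw [e1] at slow
        refine slow (.wx2 ?_ hG')
        rw [e2, Sym2.eq_swap]
        exact Or.inl rfl
    | wx2 hx2 hG =>
      rcases p.nb_x2 hb with rfl | rfl | rfl
      · -- back to `y1`
        have hF : p.BaseF (U3 u x2 y1) := baseF_of (nTZ (by simp)) (by simp)
        refine start_fast le_rfl hF (.my (Or.inr (Or.inl rfl)) hB.y1m1 hB.y1u1 hB.m1u1 ?_)
        have hun : nJG u := by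
          rcases p.nb_x2 hadj.symm with rfl | rfl | rfl
          · exact nj_name (by simp)
          · exact nj_name (by simp)
          · exact ⟨by simp [inC], by simp [inC]⟩
        have h0 : p.JG (∅ : Set (Sym2 V)) := ⟨fun _ _ h => h, fun _ _ h => h⟩
        have h1 := ((h0.ins hun (nj_name (v := x2) (by simp))).ins (nj_name (v := z) (by simp))
          (nj_name (v := x) (by simp))).ins (nj_name (v := x2) (by simp))
            (nj_name (v := y1) (by simp))
        have h2 : U3 u x2 y1 = insert s(x2, y1) (insert s(z, x) (insert s(u, x2) ∅)) := by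
          simp [U3]
        rw [h2]; exact h1.2
      · exact slow (.ww (Or.inl (by rw [Sym2.eq_swap]))
          (hG.ins (nj_name (by simp)).2 (nj_name (by simp)).2))
      · exact absurd hx2 hu
    | ww hw hG =>
      have := p.nb_w hb
      subst this
      exact absurd hw hu
  · -- fast
    have hnZ := hm.nZ
    have hB : p.BaseF (U3 u u' u'') := baseF_of hnZ hx
    have fast := fun (hm' : p.MF 1 (U3 u u' u'') u'') => start_fast le_rfl hB hm'
    cases hm with
    | fm _ f h =>
      have hst := h.step (a := z) (a' := x) (by omega) (fun h => absurd h hx)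
          (nj_name (by simp)) (nj_name (by simp)) hb hu1
      rw [hins] at hst
      exact fast (.fm _ _ hst)
    | my h h1 h2 h3 hG =>
      have cg : ∀ {v v' : V}, nJG v → nJG v' → p.cfree G (insert s(v, v') U1) :=
        fun h1 h2 => Par.cG.ins hG h1.2 h2.2
      rcases p.nb_y1 hb with rfl | rfl | rfl | rfl
      · exact fast (.fm _ 0 (.dw _ (.d4 (Or.inl (by rw [Sym2.eq_swap]))) (hk0 _ (by simp)) (by simp)
          (p.GT_of (cg (nj_name (by simp)) (nj_name (by simp))))))
      · exact fast (.fm _ 0 (.dw _ (.d5 (Or.inl (by rw [Sym2.eq_swap]))) (hk0 _ (by simp)) (by simp)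
          (p.GT_of (cg (nj_name (by simp)) (nj_name (by simp))))))
      · exact fast (.fm _ 0 (.w2 (Or.inl rfl) (cg (nj_name (by simp)) (nj_name (by simp))) rfl))
      · exact fast (.fm _ 1 (.w1 (Or.inl (Or.inl rfl)) (cg (nj_name (by simp)) (nj_name (by simp)))
          rfl))
  · -- `w → x2`
    have hB : p.BaseF (U3 w x2 u'') := baseF_of (nTZ (by simp)) hx
    have fast := fun (hm' : p.MF 1 (U3 w x2 u'') u'') => start_fast le_rfl hB hm'
    have h0 : p.JG (∅ : Set (Sym2 V)) := ⟨fun _ _ h => h, fun _ _ h => h⟩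
    have h1 := (h0.ins (nj_name (v := w) (by simp)) (nj_name (v := x2) (by simp))).ins
      (nj_name (v := z) (by simp)) (nj_name (v := x) (by simp))
    have h2 : ∀ v, U3 w x2 v = insert s(x2, v) (insert s(z, x) (insert s(w, x2) ∅)) := by
      intro v; simp [U3]
    have hS : p.BaseS (U3 w x2 u'') := baseS_of ⟨⟨by simp, by simp⟩, by simp, by simp, by simp⟩ hx
    rcases p.nb_x2 hb with rfl | rfl | rfl
    · refine fast (.my (Or.inr (Or.inl rfl)) hS.y1m1 hS.y1u1 hS.m1u1 ?_)
      rw [h2]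
      exact (h1.ins (nj_name (v := x2) (by simp)) (nj_name (v := y1) (by simp))).2
    · rw [Sym2.eq_swap] at hu
      exact absurd (Or.inr rfl) hu
    · have e1 : I kap 1 = p.cp kap false (p.ka - 1) := by
        rw [p.cp_mid (c := kap) (by omega) (by omega)]
        simp only [Bool.false_eq_true, if_false]; congr 1; omega
      have e2 : p.cp kap false (p.ka - 1 + 1) = x2 := by
        rw [show p.ka - 1 + 1 = p.len kap by omega, Par.cp_len]; rfl
      have hbb : p.ce kap false (p.ka - 1) ∈ U3 w x2 (I kap 1) := by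
        left; rw [Par.ce, e2, ← e1, Sym2.eq_swap]
      have hgt : p.GT (U3 w x2 (I kap 1)) := by
        rw [h2]
        exact p.GT_of (h1.ins (nj_name (v := x2) (by simp)) ⟨by simp [inC], by simp [inC]⟩).2
      refine fast (.fm _ 0 (.dw _ ?_ ?_ (by simp) hgt))
      · rw [e1] at hbb ⊢
        exact .d7 (p.ka - 1) (by omega) (by omega) hbb
      · intro k hk h3 h4
        rw [e1] at hk
        have := p.I_inj_cp (c := kap) (by omega) (by omega) (by omega) hk
        omega

/-- **The second player wins, if the formula is false.** -/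
theorem winsF_of (hT : p.Typed) (hF : ¬ p.truth)
    (hcls : ∀ v v', p.Adj v v' → s(v, v') ≠ s(z, x) →
      (p.BaseS {s(v, v'), s(z, x)} ∧ p.MS 0 {s(v, v'), s(z, x)} v') ∨
      (p.BaseF {s(v, v'), s(z, x)} ∧ p.MF 0 {s(v, v'), s(z, x)} v') ∨ (v = w ∧ v' = x2)) :
    p.WinsF := by
  intro u u' hadj
  by_cases hzx : s(u, u') = s(z, x)
  · -- the first player plays `z x`
    refine ⟨w, x2, Or.inl .wx2, ?_, ?_⟩
    · rw [hzx]; intro h
      rcases Sym2.eq_iff.1 h with ⟨h, _⟩ | ⟨h, _⟩ <;> simp at h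
    rcases Sym2.eq_iff.1 hzx with ⟨rfl, rfl⟩ | ⟨rfl, rfl⟩
    · intro u'' hb hu
      rcases p.nb_x hb with rfl | rfl | rfl
      · exact absurd (Or.inr (by rw [Sym2.eq_swap]; rfl)) hu
      · -- the main line
        refine MW.intro (I kap 1) (Or.inl .kap0) ?_ ?_
        · rintro (h | h | h)
          · rcases Sym2.eq_iff.1 h with ⟨h, _⟩ | ⟨h, _⟩ <;> simp at h
          · rcases Sym2.eq_iff.1 h with ⟨h, _⟩ | ⟨h, h'⟩
            · simp at h
            · simp at h'
          · rcases Sym2.eq_iff.1 h with ⟨h, _⟩ | ⟨h, _⟩ <;> simp at h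
        · intro b1 hb1 hu1
          exact n2_core p hT hF b1 hb1 hu1
      · -- the first player goes to `y2`
        have hf : ∀ v v' : V, v ≠ w → v ≠ z → v' ≠ w → v' ≠ z → s(v, v') ≠ s(x, y2) →
            s(v, v') ∉ (insert s(x, y2) {s(w, x2), s(z, x)} : Set (Sym2 V)) := by
          rintro v v' h1 h2 h3 h4 h5 (h | h | h)
          · exact h5 h
          · rcases Sym2.eq_iff.1 h with ⟨h, _⟩ | ⟨_, h⟩
            · exact h1 h
            · exact h3 h
          · rcases Sym2.eq_iff.1 h with ⟨h, _⟩ | ⟨_, h⟩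
            · exact h2 h
            · exact h4 h
        have h0 : p.JG (∅ : Set (Sym2 V)) := ⟨fun _ _ h => h, fun _ _ h => h⟩
        refine MW.intro y1 (Or.inl .x2y1) (hf _ _ (by simp) (by simp) (by simp) (by simp) ?_) ?_
        · intro h
          rcases Sym2.eq_iff.1 h with ⟨h, _⟩ | ⟨h, _⟩ <;> simp at h
        intro b' hb' hu'
        have hJ : ∀ v', nJG v' → p.JG (insert s(y2, v') (insert s(x2, y1)
            (insert s(x, y2) {s(w, x2), s(z, x)}))) := by
          intro v' hv'
          have h1 := ((((h0.ins (nj_name (v := z) (by simp)) (nj_name (v := x) (by simp))).ins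
            (nj_name (v := w) (by simp)) (nj_name (v := x2) (by simp))).ins
            (nj_name (v := x) (by simp)) (nj_name (v := y2) (by simp))).ins
            (nj_name (v := x2) (by simp)) (nj_name (v := y1) (by simp))).ins
            (nj_name (v := y2) (by simp)) hv'
          have h2 : insert s(y2, v') (insert s(x2, y1) (insert s(x, y2)
              ({s(w, x2), s(z, x)} : Set (Sym2 V)))) =
            insert s(y2, v') (insert s(x2, y1) (insert s(x, y2) (insert s(w, x2)
              (insert s(z, x) ∅)))) := by simp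
          rw [h2]; exact h1
        have hTL : ∀ v : V, (v = z ∨ v = x ∨ v = w ∨ v = x2 ∨ v = y1 ∨ v = y2) → ¬ p.TL 0 v := by
          rintro v (rfl | rfl | rfl | rfl | rfl | rfl) <;>
            exact p.nTL ⟨by simp, by simp⟩ (by simp)
        have hFr0 : Fr (p.TL 0) (∅ : Set (Sym2 V)) := fun _ _ _ _ h => h
        have hFr : Fr (p.TL 0) (insert s(y2, b') (insert s(x2, y1)
            (insert s(x, y2) {s(w, x2), s(z, x)}))) := by
          have h2 : insert s(y2, b') (insert s(x2, y1) (insert s(x, y2)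
              ({s(w, x2), s(z, x)} : Set (Sym2 V)))) =
            insert s(y2, b') (insert s(x2, y1) (insert s(x, y2) (insert s(w, x2)
              (insert s(z, x) ∅)))) := by simp
          rw [h2]
          exact ((((hFr0.insl (hTL _ (by simp))).insl (hTL _ (by simp))).insl
            (hTL _ (by simp))).insl (hTL _ (by simp))).insl (hTL _ (by simp))
        have hctx : p.ctx (insert s(y2, b') (insert s(x2, y1)
            (insert s(x, y2) {s(w, x2), s(z, x)}))) := ⟨by simp, Or.inr ⟨by simp, by simp⟩⟩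
        have hfree : ∀ v v' : V, (v = y1 ∨ v = m1) → (v' = u1 ∨ v' = m1) →
            s(v, v') ∉ (insert s(y2, b') (insert s(x2, y1)
              (insert s(x, y2) {s(w, x2), s(z, x)})) : Set (Sym2 V)) := by
          intro v v' hv hv'
          have a1 : v ≠ y2 ∧ v ≠ x2 ∧ v ≠ w ∧ v ≠ z ∧ v ≠ x := by
            rcases hv with rfl | rfl <;> simp
          have a2 : v' ≠ y2 ∧ v' ≠ x2 ∧ v' ≠ w ∧ v' ≠ z ∧ v' ≠ y1 ∧ v' ≠ x := by
            rcases hv' with rfl | rfl <;> simp
          rintro (h | h | h)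
          · rcases Sym2.eq_iff.1 h with ⟨h, _⟩ | ⟨_, h⟩
            · exact a1.1 h
            · exact a2.1 h
          · rcases Sym2.eq_iff.1 h with ⟨h, _⟩ | ⟨_, h⟩
            · exact a1.2.1 h
            · exact a2.2.1 h
          · refine hf _ _ a1.2.2.1 a1.2.2.2.1 a2.2.2.1 a2.2.2.2.1 ?_ h
            intro h
            rcases Sym2.eq_iff.1 h with ⟨h, _⟩ | ⟨h, _⟩
            · exact a1.2.2.2.2 h
            · exact a1.1 h
        have core := fun (f : ℕ) hm' => slow_core (p := p) (f := f) (t := 2) (b := b') (by omega)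
          (by omega) hctx hFr (hfree y1 u1 (by simp) (by simp)) (hfree y1 m1 (by simp) (by simp))
          (hfree m1 u1 (by simp) (by simp)) hm'
        rcases p.nb_y2 hb' with rfl | rfl | rfl
        · exact absurd (Or.inr (Or.inl (by rw [Sym2.eq_swap]))) hu'
        · exact core 1 (Or.inr (Or.inr (Or.inr (Or.inr (.lt2 (Or.inl rfl) (by omega)
            (hJ _ (nj_name (by simp))) rfl)))))
        · exact core 0 (Or.inr (Or.inr (Or.inr (Or.inr (.lt1 (Or.inl (Or.inl rfl)) (by omega)
            (hJ _ (nj_name (by simp))) rfl)))))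
    · intro u'' hb hu
      have := p.nb_z hb
      subst this
      exact absurd (Or.inr (by rw [Sym2.eq_swap]; rfl)) hu
  by_cases hx : u' = x
  · subst hx
    rcases p.nb_x hadj.symm with rfl | rfl | rfl
    · exact absurd rfl hzx
    · -- first edge `y1 → x`
      refine ⟨x, y2, Or.inl .xy2, ?_, ?_⟩
      · intro h
        rcases Sym2.eq_iff.1 h with ⟨h, _⟩ | ⟨_, h⟩ <;> simp at h
      intro u'' hb hu
      rcases p.nb_x hb with rfl | rfl | rfl
      · refine MW.intro m2 (Or.inl .y2m2) ?_ ?_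
        · rintro (h | h | h)
          · rcases Sym2.eq_iff.1 h with ⟨h, _⟩ | ⟨h, _⟩ <;> simp at h
          · rcases Sym2.eq_iff.1 h with ⟨h, _⟩ | ⟨_, h⟩ <;> simp at h
          · rcases Sym2.eq_iff.1 h with ⟨h, _⟩ | ⟨h, _⟩ <;> simp at h
        · intro b' hb' hu'
          have := p.nb_z hb'
          subst this
          exact absurd (Or.inr (Or.inl (by rw [Sym2.eq_swap]))) hu'
      · exact absurd (Or.inr (by rw [Sym2.eq_swap]; rfl)) hu
      · exact absurd (Or.inl rfl) hu
    · -- first edge `y2 → x`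
      refine ⟨x, y1, Or.inl .xy1, ?_, ?_⟩
      · intro h
        rcases Sym2.eq_iff.1 h with ⟨h, _⟩ | ⟨_, h⟩ <;> simp at h
      intro u'' hb hu
      rcases p.nb_x hb with rfl | rfl | rfl
      · refine MW.intro u1 (Or.inl .y1u1) ?_ ?_
        · rintro (h | h | h)
          · rcases Sym2.eq_iff.1 h with ⟨h, _⟩ | ⟨h, _⟩ <;> simp at h
          · rcases Sym2.eq_iff.1 h with ⟨h, _⟩ | ⟨_, h⟩ <;> simp at h
          · rcases Sym2.eq_iff.1 h with ⟨h, _⟩ | ⟨h, _⟩ <;> simp at h
        · intro b' hb' hu'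
          have := p.nb_z hb'
          subst this
          exact absurd (Or.inr (Or.inl (by rw [Sym2.eq_swap]))) hu'
      · exact absurd (Or.inl rfl) hu
      · exact absurd (Or.inr (by rw [Sym2.eq_swap]; rfl)) hu
  · -- all other first edges
    refine ⟨z, x, Or.inl .zx, fun h => hzx h.symm, ?_⟩
    intro u'' hb hu
    exact general hadj hx hb hu (hcls u u' hadj hzx)

/-- **The second player wins, if the formula is false.** -/
theorem winsF (p : Par) (hT : p.Typed) (hF : ¬ p.truth) : p.WinsF :=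
  winsF_of hT hF fun v v' h hne => cls v v' h hne

end Pool.Agent.H49.TT
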